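import Pool.Agent.Work.MP_a8fbd7_nt.EX.ASM2.Stmts

/-!
MP_a8fbd7_nt, block EX2: large gaps between consecutive primes in terms of `Nat.nth Nat.Prime`.
Author: helper86.
-/

set_option autoImplicit false

noncomputable section

namespace Pool.Agent.Work.MP_a8fbd7_nt.EX.WX

open Pool.Agent.Work.MP_a8fbd7_nt.EX.ASM2

theorem gap_nth (h : StYGa) (lam : ℝ) (hlam : 0 < lam) : ∃ C : ℝ, ∀ (X : ℕ) (P : ℕ → Prop) [DecidablePred P],
    (∀ n, P n → Nat.nth Nat.Prime n ≤ X ∧
      lam * Real.sqrt (Nat.nth Nat.Prime n) ≤ (Nat.nth Nat.Prime (n + 1) : ℝ) - Nat.nth Nat.Prime n) →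
    ((((Finset.range X).filter P).card : ℕ) : ℝ) ≤ C * (X : ℝ) ^ (21 / 400 : ℝ) ∧
    ∑ n ∈ (Finset.range X).filter P, ((Nat.nth Nat.Prime (n + 1) : ℝ) - Nat.nth Nat.Prime n) ≤ C * (X : ℝ) ^ (221 / 400 : ℝ) := by
  obtain ⟨C, hC, hG⟩ := h (min lam 1) (lt_min hlam one_pos) (min_le_right _ _)
  refine ⟨C, fun X P _ hP => ?_⟩
  rcases Nat.eq_zero_or_pos X with hX | hX
  · subst hX
    simp only [Finset.range_zero, Finset.filter_empty, Finset.card_empty, Finset.sum_empty, Nat.cast_zero]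
    have e1 : (0 : ℝ) ^ (21 / 400 : ℝ) = 0 := Real.zero_rpow (by norm_num)
    have e2 : (0 : ℝ) ^ (221 / 400 : ℝ) = 0 := Real.zero_rpow (by norm_num)
    rw [e1, e2]
    constructor <;> simp
  have hinf := Nat.infinite_setOfPred_prime
  have hinj : Set.InjOn (fun n : ℕ => (Nat.nth Nat.Prime n, Nat.nth Nat.Prime (n + 1))) ((Finset.range X).filter P : Set ℕ) := by
    intro a _ b _ hab
    exact (Nat.nth_strictMono hinf).injective (Prod.mk.inj hab).1
  have hg := hG X hX (((Finset.range X).filter P).image (fun n : ℕ => (Nat.nth Nat.Prime n, Nat.nth Nat.Prime (n + 1)))) ?_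
  · rw [Finset.card_image_of_injOn hinj, Finset.sum_image hinj] at hg
    exact hg
  · intro g hg
    rw [Finset.mem_image] at hg
    obtain ⟨n, hn, rfl⟩ := hg
    rw [Finset.mem_filter] at hn
    obtain ⟨h1, h2⟩ := hP n hn.2
    refine ⟨Nat.prime_nth_prime n, Nat.prime_nth_prime (n + 1), Nat.nth_strictMono hinf (Nat.lt_succ_self n), h1, ?_, ?_⟩
    · intro q hq hlt
      by_contra hcon
      rw [not_le] at hcon
      have h6 : Nat.count Nat.Prime q < Nat.count Nat.Prime (Nat.nth Nat.Prime (n + 1)) := Nat.count_strict_mono hq hcon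
      rw [Nat.count_nth_of_infinite hinf] at h6
      have h3 : n + 1 ≤ Nat.count Nat.Prime q := by
        have h4 : Nat.count Nat.Prime (Nat.nth Nat.Prime n) = n := Nat.count_nth_of_infinite hinf n
        have h5 : Nat.count Nat.Prime (Nat.nth Nat.Prime n) < Nat.count Nat.Prime q :=
          Nat.count_strict_mono (Nat.prime_nth_prime n) hlt
        omega
      omega
    · refine le_trans ?_ h2
      exact mul_le_mul_of_nonneg_right (min_le_left _ _) (Real.sqrt_nonneg _)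

/-- a difference of square roots `≥ lam` gives a gap `≥ 2 lam √p` -/
theorem sqrt_gap {p q lam : ℝ} (hp : 0 ≤ p) (hpq : p ≤ q) (h : lam ≤ Real.sqrt q - Real.sqrt p) (hl : 0 ≤ lam) :
    lam * Real.sqrt p ≤ q - p := by
  have h1 : q - p = (Real.sqrt q - Real.sqrt p) * (Real.sqrt q + Real.sqrt p) := by
    have a1 := Real.mul_self_sqrt hp
    have a2 := Real.mul_self_sqrt (hp.trans hpq)
    nlinarith
  have h2 : 0 ≤ Real.sqrt q := Real.sqrt_nonneg _
  have h3 : 0 ≤ Real.sqrt p := Real.sqrt_nonneg _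
  rw [h1]
  calc lam * Real.sqrt p ≤ (Real.sqrt q - Real.sqrt p) * Real.sqrt p := mul_le_mul_of_nonneg_right h h3
    _ ≤ (Real.sqrt q - Real.sqrt p) * (Real.sqrt q + Real.sqrt p) := mul_le_mul_of_nonneg_left (by linarith) (by linarith)

end Pool.Agent.Work.MP_a8fbd7_nt.EX.WX
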