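import Pool.Agent.Work.MP_a8fbd7_nt.EX.WX.Gap
import Pool.Agent.Work.MP_a8fbd7_nt.EX.WX.GapNth
import Pool.Agent.Work.MP_a8fbd7_nt.EX.ASM2.I_YSE
import Pool.Agent.Work.MP_a8fbd7_nt.EX.ASM2.I_YLo
import Pool.Agent.Work.MP_a8fbd7_nt.EX.ASM2.I_YNu

/-!
MP_a8fbd7_nt, block EX, part WX: everything together.
Author: helper86.
-/

set_option autoImplicit false

noncomputable section

namespace Pool.Agent.Work.MP_a8fbd7_nt.EX.WX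

open Pool.Agent.Work.MP_a8fbd7_nt.OX
open Pool.Agent.Work.MP_a8fbd7_nt.OX.ASM
open Pool.Agent.Work.MP_a8fbd7_nt.OX.FIN (cA cB)
open Pool.Agent.Work.MP_a8fbd7_nt.OX.CW (gn)
open Pool.Agent.Work.MP_a8fbd7_nt.OX.CW (w_Pd)
open Pool.Agent.Work.MP_a8fbd7_nt.EX.ASM2

theorem u_SE : StYSE := iYSE iMa iIn w_Pd u_Rg
theorem u_Lo : StYLo := iYLo u_PN u_Me
theorem u_Nu : StYNu := iYNu

/-- **lower bounds on average** -/
theorem main : ∃ N0 : ℕ, ∀ N H : ℕ, N0 ≤ N → (N : ℝ) ^ (37 / 400 : ℝ) ≤ H → H ≤ N →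
    1 / 125 * ∑ n ∈ Finset.Ioc N (N + H), gn n ≤ ∑ n ∈ Finset.Ioc N (N + H), cA n ∧
    1 / 125 * ∑ n ∈ Finset.Ioc N (N + H), gn n ≤ ∑ n ∈ Finset.Ioc N (N + H), cB n := pre u_SE u_Lo u_Nu

/-- **large gaps** -/
theorem all_Ga : StYGa := g_Ga u_SE u_Lo u_Nu

end Pool.Agent.Work.MP_a8fbd7_nt.EX.WX
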