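import Mathlib
import Pool.Agent.Work.MP_a8fbd7_nt.OX.CW.Cv

/-!
MP_a8fbd7_nt, block EX, part WX (lower bounds for averages over windows of `N^h` consecutive `n`): the integral of `|GS|` over a set is
controlled by one window of length `N^(1-h)`.  Copy of `OX/CW/Cv.lean` (`cv`) with a general exponent.
Author: helper86.
-/

set_option autoImplicit false

open MeasureTheory Set Filter Topology

noncomputable section

namespace Pool.Agent.Work.MP_a8fbd7_nt.EX.WX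

open Pool.Agent.Work.MP_a8fbd7_nt.OX
open Pool.Agent.Work.MP_a8fbd7_nt.OX.CELL (thr)
open Pool.Agent.Work.MP_a8fbd7_nt.OX.CW (Pt gC GSc lsep_Pt card_Pt gC_le gs_sin H_le_N cover_point int_cover harm_max)

/-- **one window** -/
theorem cvh (h : ℝ) (_h0 : 0 < h) (h1 : h ≤ 3 / 20) (ε : ℝ) (hε : 0 < ε) (hε1 : ε ≤ 1 / 10) : ∃ C : ℝ, 1 ≤ C ∧ ∀ (N H : ℕ) (T' : ℝ) (E : Set ℝ), C ≤ N →
    (N : ℝ) ^ h ≤ H → (H : ℝ) ≤ 4 * (N : ℝ) ^ (3 / 20 : ℝ) → 1 ≤ T' → T' ≤ (N : ℝ) ^ (1 + ε) → IsCompact E →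
    E ⊆ Icc T' (2 * T') → ∃ a : ℝ, ∫ t in E, ‖GS (Pt N H) (gC N) t‖ ≤
      (N : ℝ) ^ (2 * ε) * H * (volume (E ∩ Icc a (a + (N : ℝ) ^ (1 - h)))).toReal := by
  classical
  obtain ⟨C1, hC1, hsin⟩ := gs_sin
  obtain ⟨C2, hC2, hthr⟩ := thr (32 * (2 + 4 * (2 / ε))) (ε / 2) (by positivity)
  refine ⟨max (max C1 C2) ((10 : ℝ) ^ 8), le_max_of_le_left (le_max_of_le_left hC1), ?_⟩
  intro N H T' E hCN hH1 hH2 hT'1 hT' hE hEs
  have t1 : C1 ≤ N := (le_max_left _ _).trans ((le_max_left _ _).trans hCN)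
  have t2 : C2 ≤ N := (le_max_right _ _).trans ((le_max_left _ _).trans hCN)
  have t3 : (10 : ℝ) ^ 8 ≤ N := (le_max_right _ _).trans hCN
  have hN1 : (1 : ℝ) ≤ N := by linarith [show (1 : ℝ) ≤ 10 ^ 8 by norm_num]
  have hN0 : (0 : ℝ) < N := by linarith
  have hN : 1 ≤ N := by exact_mod_cast hN1
  have hHN : H ≤ N := H_le_N t3 hH2
  have hH0 : (0 : ℝ) ≤ H := Nat.cast_nonneg H
  set V : ℝ := (N : ℝ) ^ (1 - h) with hV
  have hV0 : 0 < V := by positivity
  have hHV : (N : ℝ) ≤ H * V := by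
    calc (N : ℝ) = (N : ℝ) ^ h * V := by rw [hV, ← Real.rpow_add hN0]; norm_num
      _ ≤ H * V := by gcongr
  have hGc := GSc N H hN hHN
  set K : ℕ := ⌊2 * T' / N + 1⌋₊ with hK
  set M : ℕ := ⌊2 * N / V⌋₊ with hM
  set st : ℕ × ℕ × Bool → ℝ := fun i => if i.2.2 then Real.pi * N * i.1 + i.2.1 * V else Real.pi * N * i.1 - (i.2.1 + 1) * V with hst
  set I : Finset (ℕ × ℕ × Bool) := Finset.range (K + 1) ×ˢ (Finset.range (M + 1) ×ˢ Finset.univ) with hI
  set F : ℕ × ℕ × Bool → Set ℝ := fun i => (E ∩ Icc (st i) (st i + V)) ∩ {t | ‖GS (Pt N H) (gC N) t‖ ≤ 4 * H * (1 / max 1 (i.2.1 : ℝ))}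
    with hF
  set f : ℕ × ℕ × Bool → ℝ := fun i => (volume (E ∩ Icc (st i) (st i + V))).toReal with hf
  have hEI : ∀ i, IsCompact (E ∩ Icc (st i) (st i + V)) := fun i => hE.inter_right isClosed_Icc
  have hFc : ∀ i ∈ I, IsCompact (F i) := fun i _ => (hEI i).inter_right (isClosed_le hGc continuous_const)
  have hIne : I.Nonempty := ⟨(0, 0, true), by simp [hI]⟩
  obtain ⟨i0, hi0, hmax⟩ := Finset.exists_max_image I f hIne
  refine ⟨st i0, ?_⟩
  have hcover := int_cover I E hE F hFc (fun i _ => fun t ht => ht.1.1) (by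
    intro t ht
    have htT := hEs ht
    have ht0 : 0 ≤ t := by linarith [htT.1]
    have hs := hsin N H t t1 hH2 (by
      rw [abs_of_nonneg ht0]
      refine htT.2.trans ?_
      have : (N : ℝ) ^ (1 + ε) ≤ (N : ℝ) ^ (11 / 10 : ℝ) := Real.rpow_le_rpow_of_exponent_le hN1 (by linarith)
      linarith)
    have htr : ‖GS (Pt N H) (gC N) t‖ ≤ H := by
      have := Pool.Agent.Work.MP_a8fbd7_nt.OX.CELL.GS_le (lsep_Pt N H hN hHN) (gC_le N hN0) t
      rwa [card_Pt] at this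
    obtain ⟨k, m, σ, h1, h2, h3, h4, h5⟩ := cover_point N H V t hN hV0 hHV ht0 hs htr
    refine ⟨(k, m, σ), ?_, ⟨ht, h3, h4⟩, h5⟩
    simp only [hI, Finset.mem_product, Finset.mem_range, Finset.mem_univ, and_true]
    constructor
    · apply Nat.lt_succ_of_le
      apply Nat.le_floor
      refine h1.trans ?_
      have := htT.2
      gcongr
    · apply Nat.lt_succ_of_le
      exact Nat.le_floor h2) _ hGc (fun t => norm_nonneg _)
  refine hcover.trans ?_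
  have hterm : ∀ i ∈ I, ∫ t in F i, ‖GS (Pt N H) (gC N) t‖ ≤ (4 * H * f i0) * (1 / max 1 (i.2.1 : ℝ)) := by
    intro i hi
    have hc0 : 0 ≤ 4 * H * (1 / max 1 (i.2.1 : ℝ)) := by positivity
    calc ∫ t in F i, ‖GS (Pt N H) (gC N) t‖ ≤ ∫ _ in F i, 4 * H * (1 / max 1 (i.2.1 : ℝ)) := by
          apply setIntegral_mono_on (hGc.continuousOn.integrableOn_compact (hFc i hi))
            (integrableOn_const (hFc i hi).measure_lt_top.ne) (hFc i hi).measurableSet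
          intro t ht
          exact ht.2
      _ = (volume (F i)).toReal * (4 * H * (1 / max 1 (i.2.1 : ℝ))) := by
          rw [setIntegral_const, smul_eq_mul]; rfl
      _ ≤ f i * (4 * H * (1 / max 1 (i.2.1 : ℝ))) := by
          apply mul_le_mul_of_nonneg_right _ hc0
          exact ENNReal.toReal_mono (hEI i).measure_lt_top.ne (measure_mono inter_subset_left)
      _ ≤ f i0 * (4 * H * (1 / max 1 (i.2.1 : ℝ))) := mul_le_mul_of_nonneg_right (hmax i hi) hc0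
      _ = _ := by ring
  refine (Finset.sum_le_sum hterm).trans ?_
  rw [← Finset.mul_sum]
  have hsum : ∑ i ∈ I, 1 / max 1 (i.2.1 : ℝ) = 2 * (K + 1) * ∑ m ∈ Finset.range (M + 1), 1 / max 1 (m : ℝ) := by
    rw [hI, Finset.sum_product]
    simp only [Finset.sum_product, Finset.sum_const, Finset.card_univ, Fintype.card_bool, Finset.card_range, nsmul_eq_mul]
    rw [← Finset.mul_sum]
    push_cast
    ring
  rw [hsum]
  have hf0 : 0 ≤ f i0 := ENNReal.toReal_nonneg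
  have hKb : (K : ℝ) + 1 ≤ 4 * (N : ℝ) ^ ε := by
    have h1 : (K : ℝ) ≤ 2 * T' / N + 1 := Nat.floor_le (by positivity)
    have h2 : 2 * T' / N ≤ 2 * (N : ℝ) ^ ε := by
      rw [div_le_iff₀ hN0]
      calc 2 * T' ≤ 2 * (N : ℝ) ^ (1 + ε) := by linarith
        _ = 2 * (N : ℝ) ^ ε * N := by rw [Real.rpow_add hN0, Real.rpow_one]; ring
    have h3 : (1 : ℝ) ≤ (N : ℝ) ^ ε := Real.one_le_rpow hN1 hε.le
    linarith
  have hMb : 32 * (2 + Real.log (M + 1)) ≤ (N : ℝ) ^ ε := by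
    have h1 : (M : ℝ) ≤ 2 * N / V := Nat.floor_le (by positivity)
    have hV1 : 1 ≤ V := Real.one_le_rpow hN1 (by linarith)
    have h2 : 2 * N / V ≤ 2 * N := div_le_self (by positivity) hV1
    have h3 : Real.log (M + 1) ≤ 4 * (2 / ε) * (N : ℝ) ^ (ε / 2) := by
      have hM0 : (0 : ℝ) ≤ M := Nat.cast_nonneg M
      calc Real.log (M + 1) ≤ ((M : ℝ) + 1) ^ (ε / 2) / (ε / 2) := Real.log_le_rpow_div (by positivity) (by positivity)
        _ ≤ (4 * N : ℝ) ^ (ε / 2) / (ε / 2) := by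
            gcongr
            linarith
        _ = (4 : ℝ) ^ (ε / 2) * (N : ℝ) ^ (ε / 2) * (2 / ε) := by
            rw [Real.mul_rpow (by norm_num) hN0.le]
            field_simp
        _ ≤ (4 : ℝ) ^ (1 : ℝ) * (N : ℝ) ^ (ε / 2) * (2 / ε) := by
            gcongr
            · norm_num
            · linarith
        _ = _ := by rw [Real.rpow_one]; ring
    have h4 : (1 : ℝ) ≤ (N : ℝ) ^ (ε / 2) := Real.one_le_rpow hN1 (by positivity)
    calc 32 * (2 + Real.log (M + 1)) ≤ 32 * (2 * (N : ℝ) ^ (ε / 2) + 4 * (2 / ε) * (N : ℝ) ^ (ε / 2)) := by linarith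
      _ = (32 * (2 + 4 * (2 / ε))) * (N : ℝ) ^ (ε / 2) := by ring
      _ ≤ (N : ℝ) ^ (ε / 2) * (N : ℝ) ^ (ε / 2) := by
          have := hthr N t2
          gcongr
      _ = (N : ℝ) ^ ε := by rw [← Real.rpow_add hN0]; congr 1; ring
  have hh := harm_max M
  calc 4 * H * f i0 * (2 * (K + 1) * ∑ m ∈ Finset.range (M + 1), 1 / max 1 (m : ℝ))
      ≤ 4 * H * f i0 * (2 * (4 * (N : ℝ) ^ ε) * (2 + Real.log (M + 1))) := by gcongr
    _ = H * f i0 * (N : ℝ) ^ ε * (32 * (2 + Real.log (M + 1))) := by ring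
    _ ≤ H * f i0 * (N : ℝ) ^ ε * (N : ℝ) ^ ε := by gcongr
    _ = (N : ℝ) ^ (2 * ε) * H * f i0 := by
        rw [show 2 * ε = ε + ε by ring, Real.rpow_add hN0]; ring

end Pool.Agent.Work.MP_a8fbd7_nt.EX.WX
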