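import Mathlib
import Pool.Agent.Work.MP_a8fbd7_nt.EX.WX.Cls

/-!
MP_a8fbd7_nt, block EX, part WX: the three-block lemma for windows (class B), `H = 9/10`, `c0 = 119/500`.
Author: helper86.
-/

set_option autoImplicit false

noncomputable section

namespace Pool.Agent.Work.MP_a8fbd7_nt.EX.WX

open Pool.Agent.Work.MP_a8fbd7_nt.OX.CW (GMw)

/-- **three-block lemma for windows** at the height `T^H`, small blocks of length at most `T^c0`; pure real arithmetic -/
def TriW (H c0 : ℝ) : Prop := ∀ β : ℝ, 0 < β → β ≤ 1 / 20 → ∃ e : ℝ, 0 < e ∧ e ≤ β / 4000 ∧ ∃ Q : ℕ,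
  ∀ a b c gA gB h tau W s : ℝ, 0 < s → s ≤ e → 0 < a → 0 < b → a / 60 ≤ gA → b / 60 ≤ gB → c / 60 ≤ h → a ≤ 1 + e → b ≤ 1 + e →
    β / 8 ≤ c → c ≤ c0 + e → 2 - e ≤ a + b + c → a + b + c ≤ 2 + e → gA + gB + h - s ≤ W → W ≤ tau + s → tau ≤ H + s →
    (∀ i j k : ℕ, 0 < i * a + j * b + k * c → i * a + j * b + k * c ≤ 2 →
      LVh H (i * a + j * b + k * c) (i * gA + j * gB + k * h) tau s Q) → False

theorem mv_or {H l g tau s : ℝ} {Q : ℕ} (K : LVh H l g tau s Q) : tau ≤ 2 * g + s ∨ tau ≤ 2 * g + (H - l) + s := by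
  have h := K.mv
  rcases le_total 0 (H - l) with h1 | h1
  · rw [max_eq_right h1] at h; exact Or.inr h
  · rw [max_eq_left h1] at h; left; linarith

theorem hx_or {H l g tau s : ℝ} {Q : ℕ} (K : LVh H l g tau s Q) : tau ≤ 2 * g + s ∨ tau ≤ H + 6 * g - 2 * l + s := by
  have h := K.hx
  rcases le_total (2 * g) (H + 6 * g - 2 * l) with h1 | h1
  · rw [max_eq_right h1] at h; exact Or.inr h
  · rw [max_eq_left h1] at h; exact Or.inl h

/-- Guth-Maynard with one window -/
theorem gm_or {H l g tau s : ℝ} {Q : ℕ} (K : LVh H l g tau s Q) (q : ℕ) (hq : 1 ≤ q) (hqQ : q ≤ Q) :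
    H ≤ l ∨ 2 * l ≤ H + s ∨
    tau ≤ 2 * g + s ∨ tau ≤ (4 * H / 3 - 2 * l + 4 * g) + s ∨ tau ≤ (H / 2 - l + 4 * g) + s ∨ tau ≤ (H - 2 * l + 16 * g / 3) + s ∨
      tau ≤ (H - 2 * l + 28 * g / 5) + s ∨ tau ≤ (3 * H / 2 - 3 * l + 7 * g) + s ∨
      (q + 1) * (tau - s) ≤ H + q * (6 * g - l) ∨ (q + 1) * (tau - s) ≤ q * (H - 2 * l + 6 * g) := by
  rcases le_total H l with h1 | h1
  · exact Or.inl h1
  right
  rcases le_total (2 * l) (H + s) with h2 | h2
  · exact Or.inl h2
  right
  have h := K.gm q H hq hqQ h1 h2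
  unfold GMw at h
  rw [sub_self, max_self] at h
  have h' : tau - s ≤ max (2 * g) (max (4 * H / 3 - 2 * l + 4 * g) (max (H / 2 - l + 4 * g)
    (max (H - 2 * l + 16 * g / 3) (max (H - 2 * l + 28 * g / 5) (max (3 * H / 2 - 3 * l + 7 * g)
      (max ((q : ℝ) / (q + 1) * (H / q - l + 6 * g)) ((q : ℝ) / (q + 1) * (H - 2 * l + 6 * g)))))))) := by
    linarith
  have hq0 : (0 : ℝ) < q := by exact_mod_cast hq
  simp only [le_max_iff] at h'
  rcases h' with h | h | h | h | h | h | h | h
  · left; linarith
  · right; left; linarith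
  · right; right; left; linarith
  · right; right; right; left; linarith
  · right; right; right; right; left; linarith
  · right; right; right; right; right; left; linarith
  · right; right; right; right; right; right; left
    have h1 : (q + 1) * (tau - s) ≤ (q + 1) * ((q : ℝ) / (q + 1) * (H / q - l + 6 * g)) :=
      mul_le_mul_of_nonneg_left h (by linarith)
    have h2 : (q + 1) * ((q : ℝ) / (q + 1) * (H / q - l + 6 * g)) = H + q * (6 * g - l) := by
      field_simp
      ring
    linarith
  · right; right; right; right; right; right; right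
    have h1 : (q + 1) * (tau - s) ≤ (q + 1) * ((q : ℝ) / (q + 1) * (H - 2 * l + 6 * g)) :=
      mul_le_mul_of_nonneg_left h (by linarith)
    have h2 : (q + 1) * ((q : ℝ) / (q + 1) * (H - 2 * l + 6 * g)) = q * (H - 2 * l + 6 * g) := by
      field_simp
    linarith

/-- the tree for `c ≥ 1/10` -/
theorem treeB {a b c gA gB h tau s e : ℝ} {Q : ℕ} (hs : 0 < s) (hse : s ≤ e) (he : e ≤ 1 / 1000000)
    (hgA : a / 60 ≤ gA) (hgB : b / 60 ≤ gB) (hh : c / 60 ≤ h) (ha1 : a ≤ 1 + e) (hba : b ≤ a) (hc0 : 1 / 10 ≤ c) (hc1 : c ≤ 119 / 500 + e)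
    (hsum0 : 2 - e ≤ a + b + c) (_hsum1 : a + b + c ≤ 2 + e) (_ht1 : tau ≤ 9 / 10 + s) (hWt : gA + gB + h ≤ tau + 2 * s) (hQ : 8 ≤ Q)
    (LA : LVh (9 / 10) a gA tau s Q) (LB : LVh (9 / 10) b gB tau s Q) (LBC : LVh (9 / 10) (b + c) (gB + h) tau s Q)
    (L2 : LVh (9 / 10) (2 * c) (2 * h) tau s Q) (L3 : LVh (9 / 10) (3 * c) (3 * h) tau s Q)
    (L4 : LVh (9 / 10) (4 * c) (4 * h) tau s Q) : False := by
  have MA := mv_or LA
  have MB := mv_or LB
  have MBC := mv_or LBC
  have M4 := mv_or L4
  have XA := hx_or LA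
  have XB := hx_or LB
  have X2 := hx_or L2
  have X3 := hx_or L3
  have X4 := hx_or L4
  have GB := gm_or LB 7 (by norm_num) (by omega)
  have G4 := gm_or L4 8 (by norm_num) (by omega)
  norm_num at GB G4
  clear LA LB LBC L2 L3 L4
  rcases MA with MA | MA
  · rcases MB with MB | MB
    · linarith
    · rcases X2 with X2 | X2
      · rcases XB with XB | XB
        · linarith
        · linarith
      · rcases XB with XB | XB
        · linarith
        · rcases M4 with M4 | M4
          · rcases GB with G | G | G | G | G | G | G | G | G | G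
            · linarith
            · linarith
            · linarith
            · linarith
            · linarith
            · linarith
            · linarith
            · linarith
            · linarith
            · linarith
          · rcases X4 with X4 | X4
            · linarith
            · rcases G4 with G | G | G | G | G | G | G | G | G | G
              · linarith
              · linarith
              · linarith
              · linarith
              · linarith
              · linarith
              · linarith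
              · linarith
              · linarith
              · linarith
  · rcases MBC with MBC | MBC
    · rcases MB with MB | MB
      · rcases X3 with X3 | X3
        · rcases XA with XA | XA
          · linarith
          · linarith
        · linarith
      · rcases X3 with X3 | X3
        · rcases XB with XB | XB
          · rcases XA with XA | XA
            · linarith
            · linarith
          · linarith
        · linarith
    · linarith

/-- the lemma for `b ≤ a` -/
theorem coreB {β : ℝ} (hβ : 0 < β) (hβ1 : β ≤ 1 / 20) {a b c gA gB h tau W s e : ℝ} (he : e = β / 10 ^ 6) (hs : 0 < s) (hse : s ≤ e)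
    (hb : 0 < b) (hgA : a / 60 ≤ gA) (hgB : b / 60 ≤ gB) (hh : c / 60 ≤ h) (ha1 : a ≤ 1 + e)
    (hc0 : β / 8 ≤ c) (hc1 : c ≤ 119 / 500 + e) (hsum0 : 2 - e ≤ a + b + c) (hsum1 : a + b + c ≤ 2 + e)
    (hW : gA + gB + h - s ≤ W) (hWt : W ≤ tau + s) (ht1 : tau ≤ 9 / 10 + s)
    (hLV : ∀ i j k : ℕ, 0 < i * a + j * b + k * c → i * a + j * b + k * c ≤ 2 →
      LVh (9 / 10) (i * a + j * b + k * c) (i * gA + j * gB + k * h) tau s 8)
    (hab : b ≤ a) : False := by
  have e0 : 0 < e := by rw [he]; positivity
  have e1 : e ≤ 1 / 1000000 := by rw [he]; linarith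
  have hc : 0 < c := by linarith
  have LA : LVh (9 / 10) a gA tau s 8 := by
    have := hLV 1 0 0 (by norm_num; linarith) (by norm_num; linarith)
    simpa using this
  have LB : LVh (9 / 10) b gB tau s 8 := by
    have := hLV 0 1 0 (by norm_num; linarith) (by norm_num; linarith)
    simpa using this
  rcases le_total c (1 / 10) with hc10 | hc10
  · -- short `C`
    have m1 : tau ≤ 2 * gA + 3 * e := by
      rcases mv_or LA with H | H
      · linarith
      · linarith
    have m2 : tau ≤ 2 * gB + 3 * e := by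
      rcases mv_or LB with H | H
      · linarith
      · linarith
    rw [he] at m1 m2 hse
    linarith
  · have LBC : LVh (9 / 10) (b + c) (gB + h) tau s 8 := by
      have := hLV 0 1 1 (by norm_num; linarith) (by norm_num; linarith)
      simpa using this
    have L2 : LVh (9 / 10) (2 * c) (2 * h) tau s 8 := by
      have := hLV 0 0 2 (by norm_num; linarith) (by norm_num; linarith)
      simpa using this
    have L3 : LVh (9 / 10) (3 * c) (3 * h) tau s 8 := by
      have := hLV 0 0 3 (by norm_num; linarith) (by norm_num; linarith)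
      simpa using this
    have L4 : LVh (9 / 10) (4 * c) (4 * h) tau s 8 := by
      have := hLV 0 0 4 (by norm_num; linarith) (by norm_num; linarith)
      simpa using this
    exact treeB hs hse e1 hgA hgB hh ha1 hab hc10 hc1 hsum0 hsum1 ht1 (by linarith) (by norm_num) LA LB LBC L2 L3 L4

/-- **the three-block lemma for windows** -/
theorem triW : TriW (9 / 10) (119 / 500) := by
  intro β hβ hβ1
  refine ⟨β / 10 ^ 6, by positivity, by linarith, 8, ?_⟩
  intro a b c gA gB h tau W s hs hse ha hb hgA hgB hh ha1 hb1 hc0 hc1 hsum0 hsum1 hW hWt ht1 hLV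
  rcases le_total b a with hab | hab
  · exact coreB hβ hβ1 rfl hs hse hb hgA hgB hh ha1 hc0 hc1 hsum0 hsum1 hW hWt ht1 hLV hab
  · refine coreB (a := b) (b := a) (gA := gB) (gB := gA) hβ hβ1 rfl hs hse ha hgB hgA hh hb1 hc0 hc1 (by linarith)
      (by linarith) (by linarith) hWt ht1 ?_ hab
    intro i j k h1 h2
    have := hLV j i k (by linarith) (by linarith)
    rw [show (i : ℝ) * b + j * a = j * a + i * b by ring, show (i : ℝ) * gB + j * gA = j * gA + i * gB by ring]
    exact this

end Pool.Agent.Work.MP_a8fbd7_nt.EX.WX
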