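import Mathlib
import Pool.Agent.Work.MP_a8fbd7_nt.EX.WX.TreeB

/-!
MP_a8fbd7_nt, block EX, part WX: the three-block lemma for windows (class A), `H = 9/10`, `c0 = 119/500`.
Author: helper86.
-/

set_option autoImplicit false

noncomputable section

namespace Pool.Agent.Work.MP_a8fbd7_nt.EX.WX

/-- **three-block lemma for windows, class A**: total length `ν = a + b + c ≤ 2 - κ2`, `a, b ≤ ν - 2 + H` -/
def TriAW (H c0 : ℝ) : Prop := ∀ κ2 : ℝ, 0 < κ2 → κ2 ≤ 1 / 20 → ∃ e : ℝ, 0 < e ∧ e ≤ κ2 / 100 ∧ ∃ Q : ℕ,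
  ∀ a b c gA gB h tau W s : ℝ, 0 < s → s ≤ e → 0 < a → 0 < b → 0 < c → 0 ≤ gA → 0 ≤ gB → 0 ≤ h → a + b + c ≤ 2 - κ2 →
    2 - H - e ≤ a + c → 2 - H - e ≤ b + c → c ≤ c0 + e →
    gA + gB + h + 1 - (a + b + c) / 2 - s ≤ W → W ≤ tau + s → tau ≤ H + s →
    (∀ i j k : ℕ, 0 < i * a + j * b + k * c → i * a + j * b + k * c ≤ 2 →
      LVh H (i * a + j * b + k * c) (i * gA + j * gB + k * h) tau s Q) → False

/-- the tree (the second alternative of Huxley's inequality for `A`) -/
theorem treeA {a b c gA gB h tau s e κ2 : ℝ} {Q : ℕ} (hs : 0 < s) (hse : s ≤ e) (he : e ≤ κ2 / 1000) (_hk : κ2 ≤ 1 / 20)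
    (he1 : e ≤ 1 / 1000000) (_hgA : 0 ≤ gA) (_hgB : 0 ≤ gB) (_hh : 0 ≤ h) (hsum : a + b + c ≤ 2 - κ2)
    (hac : 11 / 10 - e ≤ a + c) (hbc : 11 / 10 - e ≤ b + c) (hc1 : c ≤ 119 / 500 + e)
    (ht1 : tau ≤ 9 / 10 + s) (hWt : gA + gB + h + 1 - (a + b + c) / 2 ≤ tau + 2 * s)
    (XA : tau ≤ 9 / 10 + 6 * gA - 2 * a + s)
    (LA : LVh (9 / 10) a gA tau s Q) (LB : LVh (9 / 10) b gB tau s Q) (LBC : LVh (9 / 10) (b + c) (gB + h) tau s Q)
    (L2 : LVh (9 / 10) (2 * c) (2 * h) tau s Q) (L4 : LVh (9 / 10) (4 * c) (4 * h) tau s Q) : False := by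
  have MA := mv_or LA
  have MB := mv_or LB
  have MBC := mv_or LBC
  have X2 := hx_or L2
  have X4 := hx_or L4
  clear LA LB LBC L2 L4
  rcases MBC with MBC | MBC
  · rcases X2 with X2 | X2
    · rcases MB with MB | MB
      · linarith
      · linarith
    · rcases MA with MA | MA
      · rcases MB with MB | MB
        · linarith
        · rcases X4 with X4 | X4
          · linarith
          · linarith
      · rcases MB with MB | MB
        · linarith
        · linarith
  · rcases MA with MA | MA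
    · linarith
    · linarith

/-- **the three-block lemma for windows, class A** -/
theorem triAW : TriAW (9 / 10) (119 / 500) := by
  intro κ2 hκ hκ1
  refine ⟨κ2 / 10 ^ 6, by positivity, by linarith, 8, ?_⟩
  intro a b c gA gB h tau W s hs hse ha hb hc hgA hgB hh hsum hac hbc hc1 hW hWt ht1 hLV
  have LA : LVh (9 / 10) a gA tau s 8 := by
    have := hLV 1 0 0 (by norm_num; linarith) (by norm_num; linarith)
    simpa using this
  have LB : LVh (9 / 10) b gB tau s 8 := by
    have := hLV 0 1 0 (by norm_num; linarith) (by norm_num; linarith)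
    simpa using this
  have LBC : LVh (9 / 10) (b + c) (gB + h) tau s 8 := by
    have := hLV 0 1 1 (by norm_num; linarith) (by norm_num; linarith)
    simpa using this
  have LAC : LVh (9 / 10) (a + c) (gA + h) tau s 8 := by
    have := hLV 1 0 1 (by norm_num; linarith) (by norm_num; linarith)
    simpa using this
  have L2 : LVh (9 / 10) (2 * c) (2 * h) tau s 8 := by
    have := hLV 0 0 2 (by norm_num; linarith) (by norm_num; linarith)
    simpa using this
  have L4 : LVh (9 / 10) (4 * c) (4 * h) tau s 8 := by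
    have := hLV 0 0 4 (by norm_num; linarith) (by norm_num; linarith)
    simpa using this
  rcases hx_or LA with XA | XA
  · rcases hx_or LB with XB | XB
    · linarith
    · exact treeA (a := b) (b := a) hs hse (by linarith) hκ1 (by linarith) hgB hgA hh (by linarith) (by linarith)
        (by linarith) hc1 ht1 (by linarith) XB LB LA LAC L2 L4
  · exact treeA hs hse (by linarith) hκ1 (by linarith) hgA hgB hh hsum (by linarith) (by linarith) hc1 ht1 (by linarith)
      XA LA LB LBC L2 L4

end Pool.Agent.Work.MP_a8fbd7_nt.EX.WX
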