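import Mathlib
import Pool.Agent.Work.MP_a8fbd7_nt.EX.WX.TreeA
import Pool.Agent.Work.MP_a8fbd7_nt.EX.CELL.I_XBi
import Pool.Agent.Work.MP_a8fbd7_nt.EX.CELL.I_XAi2

/-!
MP_a8fbd7_nt, block EX, part WX: the logic of the cells for windows (real arithmetic).  Compare `EX/CELL/I_XBi.lean`, `EX/CELL/I_XAi2.lean`.
Author: helper86.
-/

set_option autoImplicit false

open MeasureTheory Set Filter Topology

noncomputable section

namespace Pool.Agent.Work.MP_a8fbd7_nt.EX.WX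

open Pool.Agent.Work.MP_a8fbd7_nt.EX.CELL (StPt)
open Pool.Agent.Work.MP_a8fbd7_nt.EX.CELL.XBi_aux (split3 ev ev_sum div_sum)
open Pool.Agent.Work.MP_a8fbd7_nt.EX.CELL.XAi_aux (sum_ind sum_ind_compl sum_compl)
open Pool.Agent.Work.MP_a8fbd7_nt.EX.CELL.XAi2_aux (wt wsum)

open Classical in
/-- logic of the cell theorem B for windows -/
def StXBW (r c0 : ℝ) : Prop := ∀ β : ℝ, 0 < β → β ≤ 1 / 20 → ∃ κ : ℝ, 0 < κ ∧ κ ≤ β / 4000 ∧ ∃ s0 : ℝ, 0 < s0 ∧ ∃ Q : ℕ,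
  ∀ (m : ℕ) (b w : Fin m → ℝ) (g : Fin m → Fin 3) (tau W s : ℝ), 0 < s → s ≤ s0 → (∀ i, 0 < b i) → 2 - κ ≤ ∑ i, b i → ∑ i, b i ≤ 2 + κ →
    ∑ i ∈ Finset.univ.filter (fun i => g i = 0), b i ≤ 1 + κ → ∑ i ∈ Finset.univ.filter (fun i => g i = 1), b i ≤ 1 + κ →
    (∀ i, g i = 2 → b i ≤ c0 + κ) → β ≤ ∑ i ∈ Finset.univ.filter (fun i => g i = 2), b i →
    (∀ i, b i / 60 ≤ w i) → ∑ i, w i - s ≤ W → ClsV (1 - r) b w tau W s Q → False

open Classical in
/-- logic of the cell theorem A for windows -/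
def StXAW (r c0 : ℝ) : Prop := ∀ κ2 : ℝ, 0 < κ2 → κ2 ≤ 1 / 20 → ∃ κ3 : ℝ, 0 < κ3 ∧ κ3 ≤ κ2 / 10 ∧ ∃ s0 : ℝ, 0 < s0 ∧ ∃ Q : ℕ,
  ∀ (m : ℕ) (b w : Fin m → ℝ) (g : Fin m → Fin 3) (tau W s : ℝ), 0 < s → s ≤ s0 → (∀ i, 0 < b i) → ∑ i, b i ≤ 2 - κ2 →
    ∑ i ∈ Finset.univ.filter (fun i => g i = 0), b i ≤ 1 + 3 * κ3 → ∑ i ∈ Finset.univ.filter (fun i => g i = 1), b i ≤ 1 + 3 * κ3 →
    (∀ i, g i = 2 → b i ≤ c0 + κ3) →
    ∑ i, w i + 1 - (∑ i, b i) / 2 - s ≤ W → ClsV (1 - r) b w tau W s Q → False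

theorem xBW (hPt : StPt) (r c0 : ℝ) (hc1 : 1 / 80 ≤ c0) (hc2 : c0 ≤ 2 / 5) (hTri : TriW (1 - r) c0) : StXBW r c0 := by
  intro β hβ hβ'
  obtain ⟨e, he0, heb, Q, hT⟩ := hTri β hβ hβ'
  refine ⟨e / 4, by positivity, by linarith, e, he0, Q, ?_⟩
  intro m b w g tau W s hs hse hb hlo hhi hg0 hg1 hg2 hgs hw hW hcl
  obtain ⟨q, hq0, hq1, hq2, hq3⟩ := hPt m b g β c0 (e / 4) hβ (by positivity) (by linarith) hb hg0 hg1 hg2 hgs hhi
  have hsb := split3 q b
  have hsw := split3 q w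
  have hA := div_sum (fun i => q i = 0) b w hw
  have hB := div_sum (fun i => q i = 1) b w hw
  have hC := div_sum (fun i => q i = 2) b w hw
  refine hT (∑ i ∈ Finset.univ.filter (fun i => q i = 0), b i)
    (∑ i ∈ Finset.univ.filter (fun i => q i = 1), b i)
    (∑ i ∈ Finset.univ.filter (fun i => q i = 2), b i)
    (∑ i ∈ Finset.univ.filter (fun i => q i = 0), w i)
    (∑ i ∈ Finset.univ.filter (fun i => q i = 1), w i)
    (∑ i ∈ Finset.univ.filter (fun i => q i = 2), w i) tau W s hs hse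
    (by linarith) (by linarith) hA hB hC (by linarith) (by linarith) hq2 (by linarith)
    (by linarith) (by linarith) (by linarith) hcl.Wt hcl.t1 ?_
  intro i j k h1 h2
  have := hcl.lv (ev q i j k) (by rw [ev_sum]; exact h1) (by rw [ev_sum]; exact h2)
  rw [ev_sum, ev_sum] at this
  exact this

/-- a division into two parts shorter than `T^(1+r)` gives a contradiction -/
theorem good {m : ℕ} {b w : Fin m → ℝ} {r tau W s δ κ2 : ℝ} {Q : ℕ} (hb : ∀ i, 0 < b i)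
    (_hκ : 0 < κ2) (hν : ∑ i, b i ≤ 2 - κ2) (hs : 0 < s) (h6 : 6 * s < δ) (hδr : δ ≤ 2 * r) (hδκ : δ ≤ κ2)
    (hW : ∑ i, w i + 1 - (∑ i, b i) / 2 - s ≤ W)
    (hC : ClsV (1 - r) b w tau W s Q) (A : Finset (Fin m)) (h1 : ∑ i ∈ A, b i ≤ 1 + r - δ)
    (h2 : ∑ i, b i - ∑ i ∈ A, b i ≤ 1 + r - δ) : False := by
  classical
  have hsub : ∑ i ∈ A, b i ≤ ∑ i, b i :=
    Finset.sum_le_sum_of_subset_of_nonneg (Finset.subset_univ A) (fun i _ _ => (hb i).le)
  have hA0 : 0 ≤ ∑ i ∈ A, b i := Finset.sum_nonneg (fun i _ => (hb i).le)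
  have hw0 : ∀ A : Finset (Fin m), 0 ≤ ∑ i ∈ A, w i := fun A => Finset.sum_nonneg (fun i _ => hC.w0 i)
  have hWt := hC.Wt
  have ht1 := hC.t1
  -- mean value for `A`
  have mvA : tau ≤ 2 * ∑ i ∈ A, w i + max 0 (1 - r - ∑ i ∈ A, b i) + s := by
    rcases A.eq_empty_or_nonempty with hA | hA
    · subst hA
      simp only [Finset.sum_empty, mul_zero, zero_add, sub_zero]
      have h1 : (1 - r : ℝ) ≤ max 0 (1 - r) := le_max_right _ _
      linarith
    · have hpos : 0 < ∑ i ∈ A, b i := Finset.sum_pos (fun i _ => hb i) hA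
      have h := hC.lv (fun i => if i ∈ A then 1 else 0)
      rw [sum_ind A b, sum_ind A w] at h
      exact (h hpos (by linarith)).mv
  have mvB : tau ≤ 2 * (∑ i, w i - ∑ i ∈ A, w i) + max 0 (1 - r - (∑ i, b i - ∑ i ∈ A, b i)) + s := by
    have hwA : ∑ i ∈ A, w i ≤ ∑ i, w i :=
      Finset.sum_le_sum_of_subset_of_nonneg (Finset.subset_univ A) (fun i _ _ => hC.w0 i)
    rcases (sub_nonneg.mpr hsub).eq_or_lt with h0 | hpos
    · rw [← h0, sub_zero]
      have h1 : (1 - r : ℝ) ≤ max 0 (1 - r) := le_max_right _ _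
      linarith
    · have h := hC.lv (fun i => if i ∈ A then 0 else 1)
      rw [sum_ind_compl A b, sum_ind_compl A w] at h
      exact (h hpos (by linarith)).mv
  rcases max_cases (0 : ℝ) (1 - r - ∑ i ∈ A, b i) with ⟨e1, f1⟩ | ⟨e1, f1⟩ <;>
  rcases max_cases (0 : ℝ) (1 - r - (∑ i, b i - ∑ i ∈ A, b i)) with ⟨e2, f2⟩ | ⟨e2, f2⟩ <;>
  rw [e1] at mvA <;> rw [e2] at mvB
  · linarith
  · linarith
  · linarith
  · linarith

open Classical in
theorem xAW (r c0 : ℝ) (hr : 0 < r) (_hr4 : r ≤ 1 / 4) (hc0' : c0 ≤ 2 / 5) (hTri : TriAW (1 - r) c0) : StXAW r c0 := by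
  intro κ2 hκ2 hκ20
  obtain ⟨e, he, heκ, Q, hQ⟩ := hTri κ2 hκ2 hκ20
  set μ : ℝ := min (min κ2 r) e with hμdef
  have hμ0 : 0 < μ := lt_min (lt_min hκ2 hr) he
  have hμκ : μ ≤ κ2 := (min_le_left _ _).trans (min_le_left _ _)
  have hμr : μ ≤ r := (min_le_left _ _).trans (min_le_right _ _)
  have hμe : μ ≤ e := min_le_right _ _
  refine ⟨μ / 100, by positivity, by linarith, μ / 100, by positivity, Q, ?_⟩
  intro m b w g tau W s hs hs0 hb hν h0 h1 h2 hW hC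
  -- the notion of good set
  have hgood : ∀ A : Finset (Fin m), ∑ i ∈ A, b i ≤ 1 + r - μ / 10 → ∑ i, b i - ∑ i ∈ A, b i ≤ 1 + r - μ / 10 → False :=
    fun A p q => good hb hκ2 hν hs (δ := μ / 10) (by linarith) (by linarith) (by linarith) hW hC A p q
  set G0 : Finset (Fin m) := Finset.univ.filter (fun i => g i = 0) with hG0
  set G1 : Finset (Fin m) := Finset.univ.filter (fun i => g i = 1) with hG1
  set G2 : Finset (Fin m) := Finset.univ.filter (fun i => g i = 2) with hG2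
  have hd02 : Disjoint G0 G2 := by
    rw [Finset.disjoint_left]
    intro i hi hj
    rw [hG0, Finset.mem_filter] at hi
    rw [hG2, Finset.mem_filter] at hj
    have := hi.2.symm.trans hj.2
    exact absurd this (by decide)
  -- a maximal set
  obtain ⟨X, hX, hXmax⟩ : ∃ X ∈ G2.powerset.filter (fun X => ∑ i ∈ G0, b i + ∑ i ∈ X, b i ≤ 1 + r - μ / 10),
      ∀ Y ∈ G2.powerset.filter (fun X => ∑ i ∈ G0, b i + ∑ i ∈ X, b i ≤ 1 + r - μ / 10), Y.card ≤ X.card := by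
    apply Finset.exists_max_image
    refine ⟨∅, ?_⟩
    rw [Finset.mem_filter]
    refine ⟨Finset.empty_mem_powerset _, ?_⟩
    simp only [Finset.sum_empty, add_zero]
    linarith
  rw [Finset.mem_filter, Finset.mem_powerset] at hX
  obtain ⟨hXG, hXs⟩ := hX
  have hdX : Disjoint G0 X := Finset.disjoint_of_subset_right hXG hd02
  set A : Finset (Fin m) := G0 ∪ X with hA
  have hAs : ∑ i ∈ A, b i = ∑ i ∈ G0, b i + ∑ i ∈ X, b i := Finset.sum_union hdX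
  have hAle : ∑ i ∈ A, b i ≤ 1 + r - μ / 10 := by rw [hAs]; exact hXs
  by_cases hb1 : ∑ i, b i - ∑ i ∈ A, b i ≤ 1 + r - μ / 10
  · exact hgood A hAle hb1
  push Not at hb1
  -- there is an element of `G2` outside `X`
  have hex : ∃ p ∈ G2, p ∉ X := by
    by_contra hcon
    push Not at hcon
    have hXeq : X = G2 := Finset.Subset.antisymm hXG hcon
    have hcompl : Aᶜ = G1 := by
      ext i
      rw [Finset.mem_compl, hA, Finset.mem_union, hXeq, hG0, hG1, hG2, Finset.mem_filter, Finset.mem_filter,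
        Finset.mem_filter]
      have h3 : ∀ x : Fin 3, (¬ ((True ∧ x = 0) ∨ (True ∧ x = 2))) ↔ (True ∧ x = 1) := by decide
      simpa using h3 (g i)
    have := sum_compl b A
    rw [hcompl] at this
    linarith
  obtain ⟨p, hpG, hpX⟩ := hex
  have hpA : p ∉ A := by
    rw [hA, Finset.mem_union]
    rintro (h | h)
    · exact (Finset.disjoint_left.mp hd02 h) hpG
    · exact hpX h
  have hbp : b p ≤ c0 + μ / 100 := by
    apply h2 p
    rw [hG2, Finset.mem_filter] at hpG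
    exact hpG.2
  have hbig : 1 + r - μ / 10 < ∑ i ∈ A, b i + b p := by
    by_contra hcon
    push Not at hcon
    have hins : insert p X ∈ G2.powerset.filter (fun X => ∑ i ∈ G0, b i + ∑ i ∈ X, b i ≤ 1 + r - μ / 10) := by
      rw [Finset.mem_filter, Finset.mem_powerset]
      refine ⟨Finset.insert_subset hpG hXG, ?_⟩
      rw [Finset.sum_insert hpX]
      rw [hAs] at hcon
      linarith
    have := hXmax _ hins
    rw [Finset.card_insert_of_notMem hpX] at this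
    omega
  have hsum : ∑ i ∈ insert p A, b i = b p + ∑ i ∈ A, b i := Finset.sum_insert hpA
  -- three parts `A`, `B`, `{p}`
  have hB : ∑ i ∈ (insert p A)ᶜ, b i = ∑ i, b i - (b p + ∑ i ∈ A, b i) := by
    rw [sum_compl, hsum]
  have hBw : ∑ i ∈ (insert p A)ᶜ, w i = ∑ i, w i - (w p + ∑ i ∈ A, w i) := by
    rw [sum_compl, Finset.sum_insert hpA]
  have hnu : ∑ i ∈ A, b i + ∑ i ∈ (insert p A)ᶜ, b i + b p = ∑ i, b i := by rw [hB]; ring
  have hwe : ∑ i ∈ A, w i + ∑ i ∈ (insert p A)ᶜ, w i + w p = ∑ i, w i := by rw [hBw]; ring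
  have hsb : ∀ i j k : ℕ, (i : ℝ) * ∑ x ∈ A, b x + j * ∑ x ∈ (insert p A)ᶜ, b x + k * b p
      = ∑ x, (wt A p i j k x : ℝ) * b x := fun i j k => (wsum A p hpA i j k b).symm
  have hsw : ∀ i j k : ℕ, (i : ℝ) * ∑ x ∈ A, w x + j * ∑ x ∈ (insert p A)ᶜ, w x + k * w p
      = ∑ x, (wt A p i j k x : ℝ) * w x := fun i j k => (wsum A p hpA i j k w).symm
  refine hQ (∑ i ∈ A, b i) (∑ i ∈ (insert p A)ᶜ, b i) (b p) (∑ i ∈ A, w i) (∑ i ∈ (insert p A)ᶜ, w i) (w p)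
    tau W s hs (by linarith) (by linarith) (by linarith) (hb p) (Finset.sum_nonneg (fun i _ => hC.w0 i))
    (Finset.sum_nonneg (fun i _ => hC.w0 i)) (hC.w0 p) (by linarith) (by linarith) (by linarith) (by linarith)
    (by rw [hnu]; linarith) hC.Wt hC.t1 ?_
  intro i j k hpos hle
  rw [hsb i j k] at hpos hle ⊢
  rw [hsw i j k]
  exact hC.lv _ hpos hle

end Pool.Agent.Work.MP_a8fbd7_nt.EX.WX
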