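import Mathlib
import Pool.Agent.Work.MP_a8fbd7_nt.EX.WX.Logic
import Pool.Agent.Work.MP_a8fbd7_nt.OX.CW.Cell

/-!
MP_a8fbd7_nt, block EX, part WX: the cell theorems for the points `n²`, `N < n ≤ N + H`, `H ≥ N^r` (three groups of blocks).
Author: helper86.
-/

set_option autoImplicit false

open MeasureTheory Set Filter Topology

noncomputable section

namespace Pool.Agent.Work.MP_a8fbd7_nt.EX.WX

open Pool.Agent.Work.MP_56b8f5_nt.UC (Sep Dp)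
open Pool.Agent.Work.MP_a8fbd7_nt.OX
open Pool.Agent.Work.MP_a8fbd7_nt.OX.CELL (thr PB_cont GS_le pigeon_two)
open Pool.Agent.Work.MP_a8fbd7_nt.OX.CW (Pt gC GSc lsep_Pt card_Pt gC_le gs_sin H_le_N exps log_thr ii_eq)

/-- exponents of a product over a finite set -/
theorem prod_exp {T : ℝ} (hT : 0 < T) {m : ℕ} (N b : Fin m → ℝ) (hb : ∀ i, N i = T ^ b i) (s : Finset (Fin m)) :
    ∏ i ∈ s, N i = T ^ (∑ i ∈ s, b i) := by
  rw [Real.rpow_sum_of_pos hT]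
  exact Finset.prod_congr rfl fun i _ => hb i

/-- cell theorem B for windows -/
def StCellXBW (r c0 : ℝ) : Prop := ∀ β : ℝ, 0 < β → β ≤ 1 / 20 → ∃ κ : ℝ, 0 < κ ∧ κ ≤ β / 4000 ∧ ∀ η : ℝ, 0 < η → η ≤ 1 / 20 →
  ∃ ε : ℝ, 0 < ε ∧ ε ≤ 1 / 1000 ∧ ∀ A : ℝ, 0 < A → ∃ A1 C : ℝ, 0 < A1 ∧ 1 ≤ C ∧
  ∀ (n H : ℕ) (T T' : ℝ) (m : ℕ) (a : Fin m → ℕ → ℂ) (N : Fin m → ℝ) (g : Fin m → Fin 3), T = n → C ≤ T → T ^ r ≤ H →
  (H : ℝ) ≤ 4 * T ^ (3 / 20 : ℝ) → 1 ≤ T' → T' ≤ T ^ (1 + ε) →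
  (∀ i, IsBlk (a i) (N i)) → (∀ i, T ^ η / 2 ≤ N i ∧ N i ≤ T ^ (1 / 2 + κ)) →
  T ^ (2 - ε) ≤ ∏ i, N i → ∏ i, N i ≤ T ^ (2 + ε) →
  (∏ i ∈ Finset.univ.filter (fun i => g i = 0), N i) ≤ T ^ (1 + κ) →
  (∏ i ∈ Finset.univ.filter (fun i => g i = 1), N i) ≤ T ^ (1 + κ) →
  (∀ i, g i = 2 → N i ≤ T ^ (c0 + κ)) →
  T ^ β ≤ ∏ i ∈ Finset.univ.filter (fun i => g i = 2), N i →
  (∀ i, ∀ t ∈ Icc T' (2 * T'), ‖PB (a i) (N i) t‖ ≤ N i / Real.log T ^ A1) →
  ∫ t in T'..(2 * T'), ‖GS (Pt n H) (gC T) t‖ * ∏ i, ‖PB (a i) (N i) t‖ < H * (∏ i, N i) / Real.log T ^ A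

/-- cell theorem A for windows -/
def StCellXAW (r c0 : ℝ) : Prop := ∀ κ2 : ℝ, 0 < κ2 → κ2 ≤ 1 / 20 → ∃ κ3 ε : ℝ, 0 < κ3 ∧ κ3 ≤ κ2 / 10 ∧ 0 < ε ∧ ε ≤ κ3 / 10 ∧
  ∀ η : ℝ, 0 < η → η ≤ 1 / 20 → ∃ C : ℝ, 1 ≤ C ∧
  ∀ (n H : ℕ) (T T' ν : ℝ) (m : ℕ) (a : Fin m → ℕ → ℂ) (N : Fin m → ℝ) (g : Fin m → Fin 3), T = n → C ≤ T → T ^ r ≤ H →
  (H : ℝ) ≤ 4 * T ^ (3 / 20 : ℝ) → 1 ≤ T' → T' ≤ T ^ (1 + ε) →
  (∀ i, IsBlk (a i) (N i)) → (∀ i, T ^ η / 2 ≤ N i ∧ N i ≤ T ^ (1 : ℝ)) →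
  ∏ i, N i = T ^ ν → ν ≤ 2 - κ2 →
  (∏ i ∈ Finset.univ.filter (fun i => g i = 0), N i) ≤ T ^ (1 + 3 * κ3) →
  (∏ i ∈ Finset.univ.filter (fun i => g i = 1), N i) ≤ T ^ (1 + 3 * κ3) →
  (∀ i, g i = 2 → N i ≤ T ^ (c0 + κ3)) →
  ∫ t in T'..(2 * T'), ‖GS (Pt n H) (gC T) t‖ * ∏ i, ‖PB (a i) (N i) t‖ < H * T ^ (1 + ν / 2 - ε)

theorem iCellXAW (hMv : StMv) (hHx : StHx) (hG : StG) (hPf : StPf) (r c0 : ℝ) (hr0 : 0 < r) (hr1 : r ≤ 3 / 20)
    (hXA : StXAW r c0) : StCellXAW r c0 := by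
  intro κ2 hκ2 hκ20
  obtain ⟨κ3, hκ3, hκ3', s0, hs0, Q, hlog⟩ := hXA κ2 hκ2 hκ20
  set s : ℝ := min s0 1 with hs
  have hsp : 0 < s := lt_min hs0 one_pos
  have hs1 : s ≤ 1 := min_le_right _ _
  have hss : s ≤ s0 := min_le_left _ _
  refine ⟨κ3, min (κ3 / 10) (s / 128), hκ3, hκ3', lt_min (by positivity) (by positivity), min_le_left _ _, ?_⟩
  set ε : ℝ := min (κ3 / 10) (s / 128) with hε
  have hε2 : ε ≤ s / 128 := min_le_right _ _
  intro η hη _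
  obtain ⟨C1, hC1, hcls⟩ := clsV hMv hHx hG hPf r hr0 hr1 s (η / 2) Q hsp hs1 (by positivity)
  obtain ⟨C2, hC2, hexp⟩ := exps η hη
  refine ⟨max C1 C2, le_max_of_le_left hC1, ?_⟩
  intro n H T T' ν m a N g hTn hT hH1 hH2 hT'1 hT' ha hN hprod hν hg0 hg1 hg2
  have t1 : C1 ≤ T := (le_max_left _ _).trans hT
  have t2 : C2 ≤ T := (le_max_right _ _).trans hT
  have hT2 : 2 ≤ T := hC2.trans t2
  have hT0 : 0 < T := by linarith
  have hT1 : 1 < T := by linarith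
  obtain ⟨b, hb1, hb2⟩ := hexp T m N t2 (fun i => (hN i).1)
  have hsum : ∑ i, b i = ν := by
    have h1 : T ^ (∑ i, b i) = T ^ ν := by
      rw [← prod_exp hT0 N b hb1, ← hprod]
    exact (Real.rpow_right_inj hT0 (by linarith)).mp h1
  have hν0 : 0 ≤ ν := by
    rw [← hsum]
    exact Finset.sum_nonneg fun i _ => by have := hb2 i; linarith
  have hsg0 : ∑ i ∈ Finset.univ.filter (fun i => g i = 0), b i ≤ 1 + 3 * κ3 := by
    rw [prod_exp hT0 N b hb1] at hg0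
    exact (Real.rpow_le_rpow_left_iff hT1).mp hg0
  have hsg1 : ∑ i ∈ Finset.univ.filter (fun i => g i = 1), b i ≤ 1 + 3 * κ3 := by
    rw [prod_exp hT0 N b hb1] at hg1
    exact (Real.rpow_le_rpow_left_iff hT1).mp hg1
  have hsg2 : ∀ i, g i = 2 → b i ≤ c0 + κ3 := by
    intro i hi
    have h1 := hg2 i hi
    rw [hb1 i] at h1
    exact (Real.rpow_le_rpow_left_iff hT1).mp h1
  by_contra hcon
  push Not at hcon
  rw [ii_eq T' hT'1] at hcon
  obtain ⟨w, τ, W, hW, _, hC⟩ := hcls n H T hTn t1 hH1 hH2 T' (1 + ν / 2 - ε) m a N b (Icc T' (2 * T')) hT'1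
    (hT'.trans (Real.rpow_le_rpow_of_exponent_le hT1.le (by linarith))) ha hb1 hb2 (by linarith) (by linarith)
    isCompact_Icc le_rfl hcon
  refine hlog m b w g τ W s hsp hss (fun i => by have := hb2 i; linarith) (by linarith) ?_ ?_ hsg2 ?_ hC
  · convert hsg0 using 2
  · convert hsg1 using 2
  · rw [hW, hsum]
    linarith

theorem iCellXBW (hMv : StMv) (hHx : StHx) (hG : StG) (hPf : StPf) (hNB : CELL.StNB) (r c0 : ℝ) (hr0 : 0 < r) (hr1 : r ≤ 3 / 20)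
    (hc0' : c0 ≤ 2 / 5) (hXB : StXBW r c0) : StCellXBW r c0 := by
  classical
  intro β hβ hβ1
  obtain ⟨κ, hκ, hκβ, s0', hs0', Q, hlog⟩ := hXB β hβ hβ1
  set s0 : ℝ := min s0' 1 with hs0d
  have hs0 : 0 < s0 := lt_min hs0' one_pos
  have hs01 : s0 ≤ 1 := min_le_right _ _
  have hss : s0 ≤ s0' := min_le_left _ _
  refine ⟨κ, hκ, hκβ, ?_⟩
  intro η hη hη1
  refine ⟨min κ (min (s0 / 128) (1 / 1000)), lt_min hκ (lt_min (by positivity) (by norm_num)),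
    (min_le_right _ _).trans (min_le_right _ _), ?_⟩
  set ε : ℝ := min κ (min (s0 / 128) (1 / 1000)) with hε
  have hε1 : ε ≤ κ := min_le_left _ _
  have hε2 : ε ≤ s0 / 128 := (min_le_right _ _).trans (min_le_left _ _)
  have hε3 : ε ≤ 1 / 1000 := (min_le_right _ _).trans (min_le_right _ _)
  have hε0 : 0 < ε := lt_min hκ (lt_min (by positivity) (by norm_num))
  intro A hA
  obtain ⟨A1, C0, hA1, hC0, hnb⟩ := hNB β η (A + 1) hβ hβ1 hη hη1 (by linarith)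
  obtain ⟨C1, hC1, hcls⟩ := clsV hMv hHx hG hPf r hr0 hr1 s0 (η / 2) Q hs0 hs01 (by positivity)
  obtain ⟨C2, hC2, hexp⟩ := exps η hη
  obtain ⟨C3, hC3, hlg⟩ := log_thr A (s0 / 2) 2 hA.le (by positivity)
  refine ⟨A1, max (max (max C0 C1) (max C2 C3)) (max ((10 : ℝ) ^ 8) (Real.exp 3)), hA1,
    le_max_of_le_left (le_max_of_le_left (le_max_of_le_left hC0)), ?_⟩
  intro n H T T' m a N g hTn hT hH1 hH2 hT'1 hT' ha hN hprod1 hprod2 hg0 hg1 hg2 hsmall hsav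
  have t0 : C0 ≤ T := (le_max_left _ _).trans ((le_max_left _ _).trans ((le_max_left _ _).trans hT))
  have t1 : C1 ≤ T := (le_max_right _ _).trans ((le_max_left _ _).trans ((le_max_left _ _).trans hT))
  have t2 : C2 ≤ T := (le_max_left _ _).trans ((le_max_right _ _).trans ((le_max_left _ _).trans hT))
  have t3 : C3 ≤ T := (le_max_right _ _).trans ((le_max_right _ _).trans ((le_max_left _ _).trans hT))
  have t4 : (10 : ℝ) ^ 8 ≤ T := (le_max_left _ _).trans ((le_max_right _ _).trans hT)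
  have t5 : Real.exp 3 ≤ T := (le_max_right _ _).trans ((le_max_right _ _).trans hT)
  have hT2 : 2 ≤ T := hC2.trans t2
  have hT0 : 0 < T := by linarith
  have hT1 : 1 < T := by linarith
  have hlog3 : 3 ≤ Real.log T := by
    rw [Real.le_log_iff_exp_le hT0]; exact t5
  obtain ⟨b, hb1, hb2⟩ := hexp T m N t2 (fun i => (hN i).1)
  have hNpos : ∀ i, 0 < N i := fun i => by rw [hb1 i]; positivity
  have hP : T ^ (∑ i, b i) = ∏ i, N i := (prod_exp hT0 N b hb1 _).symm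
  have hPpos : 0 < ∏ i, N i := Finset.prod_pos fun i _ => hNpos i
  have hs1 : 2 - ε ≤ ∑ i, b i := by
    rw [← hP] at hprod1
    exact (Real.rpow_le_rpow_left_iff hT1).mp hprod1
  have hs2 : ∑ i, b i ≤ 2 + ε := by
    rw [← hP] at hprod2
    exact (Real.rpow_le_rpow_left_iff hT1).mp hprod2
  have hsg0 : ∑ i ∈ Finset.univ.filter (fun i => g i = 0), b i ≤ 1 + κ := by
    rw [prod_exp hT0 N b hb1] at hg0
    exact (Real.rpow_le_rpow_left_iff hT1).mp hg0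
  have hsg1 : ∑ i ∈ Finset.univ.filter (fun i => g i = 1), b i ≤ 1 + κ := by
    rw [prod_exp hT0 N b hb1] at hg1
    exact (Real.rpow_le_rpow_left_iff hT1).mp hg1
  have hsg2 : ∀ i, g i = 2 → b i ≤ c0 + κ := by
    intro i hi
    have h1 := hg2 i hi
    rw [hb1 i] at h1
    exact (Real.rpow_le_rpow_left_iff hT1).mp h1
  have hsgβ : β ≤ ∑ i ∈ Finset.univ.filter (fun i => g i = 2), b i := by
    rw [prod_exp hT0 N b hb1] at hsmall
    exact (Real.rpow_le_rpow_left_iff hT1).mp hsmall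
  have hsmall41 : T ^ β ≤ ∏ i ∈ Finset.univ.filter (fun i => N i ≤ T ^ (41 / 100 : ℝ)), N i := by
    rw [prod_exp hT0 N b hb1]
    apply Real.rpow_le_rpow_of_exponent_le hT1.le
    refine hsgβ.trans ?_
    apply Finset.sum_le_sum_of_subset_of_nonneg
    · intro i hi
      rw [Finset.mem_filter] at hi ⊢
      refine ⟨hi.1, (hg2 i hi.2).trans ?_⟩
      exact Real.rpow_le_rpow_of_exponent_le hT1.le (by linarith)
    · intro i _ _
      have := hb2 i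
      linarith
  have hn1 : 1 ≤ n := by
    have : (1 : ℝ) ≤ n := by rw [← hTn]; linarith
    exact_mod_cast this
  have hHn : H ≤ n := by
    apply H_le_N (N := n)
    · rw [← hTn]; exact t4
    · rw [← hTn]; exact hH2
  have hJ0 : (0 : ℝ) < H := lt_of_lt_of_le (by positivity) hH1
  have hGc : Continuous (fun t => ‖GS (Pt n H) (gC T) t‖) := by
    rw [hTn]; exact GSc n H hn1 hHn
  have hGle : ∀ t, ‖GS (Pt n H) (gC T) t‖ ≤ H := by
    intro t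
    have hS := lsep_Pt n H hn1 hHn
    have := GS_le hS (gC_le T hT0) t
    rwa [card_Pt] at this
  by_contra hcon
  push Not at hcon
  rw [ii_eq T' hT'1] at hcon
  set E1 : Set ℝ := Icc T' (2 * T') ∩ {t | ∃ i, N i ^ (59 / 60 : ℝ) ≤ ‖PB (a i) (N i) t‖} with hE1
  set E2 : Set ℝ := Icc T' (2 * T') ∩ {t | ∀ i, ‖PB (a i) (N i) t‖ ≤ N i ^ (59 / 60 : ℝ)} with hE2
  have hE1c : IsCompact E1 := by
    apply isCompact_Icc.inter_right
    have : {t : ℝ | ∃ i, N i ^ (59 / 60 : ℝ) ≤ ‖PB (a i) (N i) t‖} = ⋃ i, {t : ℝ | N i ^ (59 / 60 : ℝ) ≤ ‖PB (a i) (N i) t‖} := by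
      ext t; simp
    rw [this]
    exact isClosed_iUnion_of_finite fun i => isClosed_le continuous_const (PB_cont (a i) (N i)).norm
  have hE2c : IsCompact E2 := by
    apply isCompact_Icc.inter_right
    have : {t : ℝ | ∀ i, ‖PB (a i) (N i) t‖ ≤ N i ^ (59 / 60 : ℝ)} = ⋂ i, {t : ℝ | ‖PB (a i) (N i) t‖ ≤ N i ^ (59 / 60 : ℝ)} := by
      ext t; simp
    rw [this]
    exact isClosed_iInter fun i => isClosed_le (PB_cont (a i) (N i)).norm continuous_const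
  have hHc : Continuous (fun t => ‖GS (Pt n H) (gC T) t‖ * ∏ i, ‖PB (a i) (N i) t‖) :=
    hGc.mul (continuous_finsetProd _ fun i _ => (PB_cont (a i) (N i)).norm)
  have hX0 : 0 < (H : ℝ) * (∏ i, N i) / Real.log T ^ A := by
    have : 0 < Real.log T := by linarith
    positivity
  rcases pigeon_two (Icc T' (2 * T')) E1 E2 isCompact_Icc hE1c hE2c inter_subset_left inter_subset_left (by
    intro t ht
    by_cases h : ∃ i, N i ^ (59 / 60 : ℝ) ≤ ‖PB (a i) (N i) t‖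
    · exact Or.inl ⟨ht, h⟩
    · push Not at h
      exact Or.inr ⟨ht, fun i => (h i).le⟩) _ hHc
    (fun t => mul_nonneg (norm_nonneg _) (Finset.prod_nonneg fun i _ => norm_nonneg _)) _ hX0 hcon with h | h
  · -- near zone
    have h1 := hnb T T' H m a N (fun t => ‖GS (Pt n H) (gC T) t‖) E1 t0 hT'1
      (hT'.trans (Real.rpow_le_rpow_of_exponent_le hT1.le (by linarith))) ha
      (fun i => ⟨(hN i).1, (hN i).2.trans (Real.rpow_le_rpow_of_exponent_le hT1.le (by linarith))⟩)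
      (le_trans (Real.rpow_le_rpow_of_exponent_le hT1.le (by linarith)) hprod1)
      (hprod2.trans (Real.rpow_le_rpow_of_exponent_le hT1.le (by linarith))) (by convert hsmall41 using 2) hsav hGc
      (fun t => norm_nonneg _) hGle hJ0 hE1c inter_subset_left (fun t ht => ht.2)
    have hl0 : 0 < Real.log T := by linarith
    have h2 : (H : ℝ) * (∏ i, N i) / Real.log T ^ (A + 1) = ((H : ℝ) * (∏ i, N i) / Real.log T ^ A) / Real.log T := by
      rw [Real.rpow_add_one hl0.ne']; field_simp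
    rw [h2] at h1
    have h3 : (H : ℝ) * (∏ i, N i) / Real.log T ^ A ≤ 2 * (((H : ℝ) * (∏ i, N i) / Real.log T ^ A) / Real.log T) := by linarith
    have h4 : 2 * (((H : ℝ) * (∏ i, N i) / Real.log T ^ A) / Real.log T) = ((H : ℝ) * (∏ i, N i) / Real.log T ^ A) * (2 / Real.log T) := by
      ring
    rw [h4] at h3
    have h5 : 1 ≤ 2 / Real.log T := by
      by_contra h6
      push Not at h6
      nlinarith
    rw [le_div_iff₀ hl0] at h5
    linarith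
  · -- far zone
    have hθ : (H : ℝ) * T ^ (∑ i, b i - s0 / 2) ≤ ∫ t in E2, ‖GS (Pt n H) (gC T) t‖ * ∏ i, ‖PB (a i) (N i) t‖ := by
      have hlA : 0 < Real.log T ^ A := Real.rpow_pos_of_pos (by linarith) _
      have h1 := hlg T t3
      have h2 : (H : ℝ) * (∏ i, N i) ≤ (2 * Real.log T ^ A) * ∫ t in E2, ‖GS (Pt n H) (gC T) t‖ * ∏ i, ‖PB (a i) (N i) t‖ := by
        rw [div_le_iff₀ hlA] at h
        linarith
      have hI0 : 0 ≤ ∫ t in E2, ‖GS (Pt n H) (gC T) t‖ * ∏ i, ‖PB (a i) (N i) t‖ :=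
        integral_nonneg fun t => mul_nonneg (norm_nonneg _) (Finset.prod_nonneg fun i _ => norm_nonneg _)
      have h3 : (H : ℝ) * (∏ i, N i) ≤ T ^ (s0 / 2) * ∫ t in E2, ‖GS (Pt n H) (gC T) t‖ * ∏ i, ‖PB (a i) (N i) t‖ :=
        h2.trans (mul_le_mul_of_nonneg_right h1 hI0)
      have h4 : (H : ℝ) * (∏ i, N i) = T ^ (s0 / 2) * (H * T ^ (∑ i, b i - s0 / 2)) := by
        rw [← hP]
        have : T ^ (∑ i, b i) = T ^ (s0 / 2) * T ^ (∑ i, b i - s0 / 2) := by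
          rw [← Real.rpow_add hT0]; congr 1; ring
        rw [this]; ring
      rw [h4] at h3
      exact le_of_mul_le_mul_left h3 (by positivity)
    obtain ⟨w, τ, W, hW, ⟨t, htE, ht⟩, hC⟩ := hcls n H T hTn t1 hH1 hH2 T' (∑ i, b i - s0 / 2) m a N b E2 hT'1
      (hT'.trans (Real.rpow_le_rpow_of_exponent_le hT1.le (by linarith))) ha hb1 hb2 (by linarith) (by linarith)
      hE2c inter_subset_left hθ
    refine hlog m b w g τ W s0 hs0 hss (fun i => by have := hb2 i; linarith) (by linarith) (by linarith) ?_ ?_ hsg2 ?_ ?_ ?_ hC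
    · convert hsg0 using 2
    · convert hsg1 using 2
    · convert hsgβ using 2
    · intro i
      have h1 : T ^ (b i - w i) ≤ N i ^ (59 / 60 : ℝ) := (ht i).trans (htE.2 i)
      rw [hb1 i, ← Real.rpow_mul hT0.le] at h1
      have h2 := (Real.rpow_le_rpow_left_iff hT1).mp h1
      linarith
    · rw [hW]
      linarith

end Pool.Agent.Work.MP_a8fbd7_nt.EX.WX
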