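import Mathlib
import Pool.Agent.Work.MP_a8fbd7_nt.EX.WX.Cell
import Pool.Agent.Work.MP_a8fbd7_nt.EX.ASM2.I_YBB
import Pool.Agent.Work.MP_a8fbd7_nt.EX.ASM2.I_YAA
import Pool.Agent.Work.MP_a8fbd7_nt.OX.CW.BBW

/-!
MP_a8fbd7_nt, block EX, part WX: the boxes of the second wave (`EX/ASM2`), on average over a window (from the cell theorems for windows and
the reductions `YBB_aux.red`, `YAA_aux.red`).
Author: helper86.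
-/

set_option autoImplicit false

open MeasureTheory Set Filter Topology

noncomputable section

namespace Pool.Agent.Work.MP_a8fbd7_nt.EX.WX

open Pool.Agent.Work.MP_56b8f5_nt.UC (IsWt Bl Dp Om psi eta Sep)
open Pool.Agent.Work.MP_a8fbd7_nt.OX
open Pool.Agent.Work.MP_a8fbd7_nt.OX.ASM
open Pool.Agent.Work.MP_a8fbd7_nt.OX.ID (Rough roughOne pb rg)
open Pool.Agent.Work.MP_a8fbd7_nt.OX.CW (Pt gC GSc lsep_Pt card_Pt mem_Pt gC_le H_le_N g_eq big)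
open Pool.Agent.Work.MP_a8fbd7_nt.EX
open Pool.Agent.Work.MP_a8fbd7_nt.EX.CELL (r2 c2)
open Pool.Agent.Work.MP_a8fbd7_nt.EX.ASM2

/-- boxes without long slots, on average over windows of `T^r` points -/
def StYBBW (r : ℝ) : Prop := ∀ β : ℝ, 0 < β → β ≤ 1 / 20 → ∃ κ : ℝ, 0 < κ ∧ κ ≤ β / 100 ∧ ∀ w : ℝ → ℝ, IsWt w → ∀ η A : ℝ, 0 < η → η ≤ 1 / 20 →
  0 < A → ∃ B0 : ℝ, 1 ≤ B0 ∧ ∀ B : ℝ, B0 ≤ B → ∃ C : ℝ, 1 ≤ C ∧
  ∀ (n H : ℕ) (T : ℝ) (u : Fin 5 → Option ℕ) (v : Fin (5 * SS η) → Option ℕ), T = n → C ≤ T → T ^ r ≤ H →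
  (H : ℝ) ≤ 4 * T ^ (3 / 20 : ℝ) → (∀ i, ¬ Lg T κ (u i)) → Gp T u → T ^ β ≤ ∏ r, sc (v r) →
  |∑ x ∈ Pt n H, DD w (BX5 (zz η T) (zz c2 T) u v) x T (Real.log T ^ B)| ≤ H * (1 / Real.log T ^ A)

/-- boxes with a long slot, on average over windows of `T^r` points -/
def StYAAW (r : ℝ) : Prop := ∀ κ2 : ℝ, 0 < κ2 → κ2 ≤ 1 / 20 → ∃ κ3 κ' : ℝ, 0 < κ3 ∧ κ3 ≤ κ2 / 10 ∧ 0 < κ' ∧ κ' ≤ κ3 / 10 ∧ ∀ w : ℝ → ℝ, IsWt w →
  ∀ η A : ℝ, 0 < η → η ≤ κ' → 0 < A → ∃ B0 : ℝ, 1 ≤ B0 ∧ ∀ B : ℝ, B0 ≤ B → ∃ C : ℝ, 1 ≤ C ∧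
  ∀ (n H : ℕ) (T : ℝ) (u : Fin 5 → Option ℕ) (v : Fin (5 * SS η) → Option ℕ) (lw : Fin 5 → ℕ → ℝ), T = n → C ≤ T →
  T ^ r ≤ H → (H : ℝ) ≤ 4 * T ^ (3 / 20 : ℝ) → (∃ i, Lg T κ2 (u i)) → Gp T u →
  (∀ i d, |lw i d| ≤ 2) → (∀ i d, lw i d ≠ 0 → 1 ≤ d ∧ (d : ℝ) ≤ T ^ κ') →
  |∑ x ∈ Pt n H, DD w (BXA5 (zz η T) (zz c2 T) T κ3 lw u v) x T (Real.log T ^ B)| ≤ H * (1 / Real.log T ^ A)

/-- the points of a window -/
theorem winr {r : ℝ} (hr : 0 ≤ r) {n H : ℕ} {T : ℝ} (hTn : T = n) (hT : (10 : ℝ) ^ 8 ≤ T) (hH1 : T ^ r ≤ H)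
    (hH2 : (H : ℝ) ≤ 4 * T ^ (3 / 20 : ℝ)) : (Pt n H).Nonempty ∧ (∀ x ∈ Pt n H, T ^ 2 ≤ x ∧ x ≤ 4 * T ^ 2) := by
  have hHn : H ≤ n := H_le_N (by rw [← hTn]; exact hT) (by rw [← hTn]; exact hH2)
  have hT1 : (1 : ℝ) ≤ T := by linarith [show (1 : ℝ) ≤ 10 ^ 8 by norm_num]
  have hH : 0 < H := by
    have h1 : (1 : ℝ) ≤ T ^ r := Real.one_le_rpow hT1 hr
    have h2 : (0 : ℝ) < H := by linarith
    exact_mod_cast h2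
  constructor
  · rw [← Finset.card_pos, card_Pt]
    exact hH
  · intro x hx
    obtain ⟨k, hk1, hk2, rfl⟩ := mem_Pt hx
    have h1 : (n : ℝ) ≤ k := by exact_mod_cast hk1.le
    have h2 : (k : ℝ) ≤ 2 * n := by
      have : k ≤ 2 * n := by omega
      exact_mod_cast this
    have h0 : (0 : ℝ) ≤ n := Nat.cast_nonneg n
    rw [hTn]
    constructor
    · exact pow_le_pow_left₀ h0 h1 2
    · calc (k : ℝ) ^ 2 ≤ (2 * n) ^ 2 := pow_le_pow_left₀ (h0.trans h1) h2 2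
        _ = 4 * (n : ℝ) ^ 2 := by ring

theorem iYBBW (r : ℝ) (hr : 0 ≤ r) (hC : StCellXBW r c2) (hF4 : StF4) (hPd : StPd) (hRg : StYRg) (hSa : StSa) : StYBBW r := by
  intro β hβ hβ2
  obtain ⟨κ, hκ, hκβ, hC1⟩ := hC β hβ hβ2
  refine ⟨κ / 4, by linarith, by linarith, ?_⟩
  intro w hw η A hη hη2 hA
  obtain ⟨ε, hε, hε2, hC2⟩ := hC1 η hη hη2
  obtain ⟨A1, C1, hA1, hC11, hC3⟩ := hC2 (A + 2) (by linarith)
  obtain ⟨B0, hB0, hR⟩ := YBB_aux.red hF4 hPd hRg hSa β κ hκ (by linarith) w hw η A ε A1 hη hη2 hA hε hε2 hA1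
  refine ⟨B0, hB0, ?_⟩
  intro B hB
  obtain ⟨C2, hC21, hR2⟩ := hR B hB
  refine ⟨max (max C1 C2) ((10 : ℝ) ^ 8), hC11.trans ((le_max_left _ _).trans (le_max_left _ _)), ?_⟩
  intro n H T u v hTn hT hH1 hH2 hLg hGp hSh
  have hTC1 : C1 ≤ T := ((le_max_left _ _).trans (le_max_left _ _)).trans hT
  have hTC2 : C2 ≤ T := ((le_max_right _ _).trans (le_max_left _ _)).trans hT
  have hT8 : (10 : ℝ) ^ 8 ≤ T := (le_max_right _ _).trans hT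
  obtain ⟨hne, hP⟩ := winr hr hTn hT8 hH1 hH2
  by_contra hc
  push Not at hc
  have hcard : ((Pt n H).card : ℝ) = H := by rw [card_Pt]
  obtain ⟨T', g, m, a, N, gp, hT'1, hT'2, hg, hblk, hN, hp1, hp2, hq0, hq1, hq2, hp3, hsav, hint⟩ := hR2 T u v (Pt n H)
    (fun _ => (1 : ℂ)) hTC2 hLg hGp hSh hne hP (fun _ => by simp) (by
      rw [hcard]
      exact big hc)
  have hgC : g = gC T := g_eq hg
  rw [hgC, hcard] at hint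
  have := hC3 n H T T' m a N gp hTn hTC1 hH1 hH2 hT'1 hT'2 hblk hN hp1 hp2 hq0 hq1 hq2 hp3 hsav
  linarith

theorem iYAAW (r : ℝ) (hr : 0 ≤ r) (hC : StCellXAW r c2) (hF4 : StF4) (hPd : StPd) (hRg : StYRg) (hRp : StRp) (hTb : StTb)
    (hKp : Pool.Agent.Work.MP_56b8f5_nt.UC.StKp) : StYAAW r := by
  intro κ2 hκ2 hκ21
  obtain ⟨κ3, ε, hκ3, hκ32, hε, hε3, hC1⟩ := hC κ2 hκ2 hκ21
  refine ⟨κ3, ε / 1000, hκ3, hκ32, by positivity, by linarith, ?_⟩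
  intro w hw η A hη hηκ hA
  obtain ⟨C1, hC11, hC2⟩ := hC1 η hη (by linarith)
  have hR := YAA_aux.red hF4 hPd hRg hRp hTb hKp κ2 κ3 ε hκ21 hκ3 hκ32 hε hε3 w hw η A hηκ hA
  refine ⟨3 * A + 25, by linarith, ?_⟩
  intro B hB
  obtain ⟨C2, hC21, hR2⟩ := hR B hB
  refine ⟨max (max C1 C2) ((10 : ℝ) ^ 8), hC11.trans ((le_max_left _ _).trans (le_max_left _ _)), ?_⟩
  intro n H T u v lw hTn hT hH1 hH2 hLg hGp hlw1 hlw2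
  have hTC1 : C1 ≤ T := ((le_max_left _ _).trans (le_max_left _ _)).trans hT
  have hTC2 : C2 ≤ T := ((le_max_right _ _).trans (le_max_left _ _)).trans hT
  have hT8 : (10 : ℝ) ^ 8 ≤ T := (le_max_right _ _).trans hT
  have hT1 : 1 ≤ T := by linarith [show (1 : ℝ) ≤ 10 ^ 8 by norm_num]
  obtain ⟨hne, hP⟩ := winr hr hTn hT8 hH1 hH2
  by_contra hc
  push Not at hc
  have hcard : ((Pt n H).card : ℝ) = H := by rw [card_Pt]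
  obtain ⟨T', ν, g, m, a, N, gr, hT'1, hT'2, hg, hgn, hblk, hN, hp1, hp2, hg0, hg1, hg2, hint⟩ := hR2 T u v lw (Pt n H)
    (fun _ => (1 : ℂ)) hTC2 hLg hGp hlw1 hlw2 hP hne (fun _ => by simp) (by
      rw [hcard]
      exact big hc)
  have hgC : g = gC T := g_eq hg
  rw [hgC, hcard] at hint
  have hT'3 : 1 ≤ T' := (Real.one_le_rpow hT1 (by norm_num)).trans hT'1
  have hT'4 : T' ≤ T ^ (1 + ε) := hT'2.trans (Real.rpow_le_rpow_of_exponent_le hT1 (by linarith))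
  have := hC2 n H T T' ν m a N gr hTn hTC1 hH1 hH2 hT'3 hT'4 hblk hN hp1 hp2 hg0 hg1 hg2
  linarith

end Pool.Agent.Work.MP_a8fbd7_nt.EX.WX
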