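import Mathlib
import Pool.Agent.Work.MP_a8fbd7_nt.EX.WX.Box
import Pool.Agent.Work.MP_a8fbd7_nt.EX.ASM2.I_YMn

/-!
MP_a8fbd7_nt, block EX, part WX: lower bound for the mean value of the smoothed numbers of primes over a window
(cf. `EX/ASM2/I_YMn.lean` by helper5 and helper74, and `OX/CW/Mn.lean`).
Author: helper86.
-/

set_option autoImplicit false

open MeasureTheory Set Filter Topology

noncomputable section

namespace Pool.Agent.Work.MP_a8fbd7_nt.EX.WX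

open Pool.Agent.Work.MP_56b8f5_nt.UC (IsWt Bl Dp Om psi eta Sep)
open Pool.Agent.Work.MP_a8fbd7_nt.OX
open Pool.Agent.Work.MP_a8fbd7_nt.OX.ID (Rough roughOne pb rg)
open Pool.Agent.Work.MP_a8fbd7_nt.OX.ASM
open Pool.Agent.Work.MP_a8fbd7_nt.OX.CW (Pt gC lsep_Pt card_Pt mem_Pt gC_le H_le_N)
open Pool.Agent.Work.MP_a8fbd7_nt.EX
open Pool.Agent.Work.MP_a8fbd7_nt.EX.CELL (r2 c2)
open Pool.Agent.Work.MP_a8fbd7_nt.EX.ASM (al bw sqr aJ)
open Pool.Agent.Work.MP_a8fbd7_nt.EX.ASM2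
open Pool.Agent.Work.MP_a8fbd7_nt.EX.ASM2.YMn_aux (cwX5_nonneg cwX5_le exists_s num_box Iw_nonneg)
open Pool.Agent.Work.MP_a8fbd7_nt.OX.ASM.Mn_aux (summable_SW SW_sum SW_abs_sub_le SW_nonneg card_Bx LL_le isSv_mono)

/-- lower bound for the mean value of the smoothed numbers of primes -/
def StYMnW (r : ℝ) : Prop := ∀ w : ℝ → ℝ, IsWt w → (∀ u, 0 ≤ w u) → ∀ δ : ℝ, 0 < δ → ∃ C : ℝ, 1 ≤ C ∧ ∀ (n H : ℕ) (T : ℝ), T = n → C ≤ T →
  T ^ r ≤ H → (H : ℝ) ≤ 4 * T ^ (3 / 20 : ℝ) →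
  H * ((Iw w / 100 - δ) / (2 * Real.log T)) ≤ ∑ x ∈ Pt n H, T / x * SW w pr x T

theorem dd_bound_avg5 {w : ℝ → ℝ} (hw : IsWt w) (hw0 : ∀ u, 0 ≤ w u) (P : Finset ℝ) {T T1 : ℝ} (hP : ∀ x ∈ P, 0 < x) (hT : 1 ≤ T) (hT1 : 1 ≤ T1)
    (f g : ℕ → ℝ) (F : Finset (Fin 5)) (e : Fin 5 → ℕ → ℝ)
    (h : ∀ n, |f n - g n| ≤ ∑ i ∈ F, e i n) :
    |∑ x ∈ P, DD w f x T T1| ≤ |∑ x ∈ P, DD w g x T T1| +
      ∑ i ∈ F, (|∑ x ∈ P, DD w (e i) x T T1| + 2 * ∑ x ∈ P, T1 / x * SW w (e i) x T1) := by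
  have b : |∑ x ∈ P, DD w f x T T1 - ∑ x ∈ P, DD w g x T T1| ≤
      ∑ x ∈ P, (T / x * ∑ i ∈ F, SW w (e i) x T + T1 / x * ∑ i ∈ F, SW w (e i) x T1) := by
    rw [← Finset.sum_sub_distrib]
    refine (Finset.abs_sum_le_sum_abs _ _).trans (Finset.sum_le_sum fun x hxP => ?_)
    have hx := hP x hxP
    have a1 := SW_abs_sub_le hw hw0 f g (fun n => ∑ i ∈ F, e i n) hx hT h
    have a2 := SW_abs_sub_le hw hw0 f g (fun n => ∑ i ∈ F, e i n) hx hT1 h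
    rw [SW_sum hw F e hx hT] at a1
    rw [SW_sum hw F e hx hT1] at a2
    have hTx : 0 ≤ T / x := by positivity
    have hT1x : 0 ≤ T1 / x := by positivity
    unfold DD
    have : T / x * SW w f x T - T1 / x * SW w f x T1 - (T / x * SW w g x T - T1 / x * SW w g x T1) =
      T / x * (SW w f x T - SW w g x T) - T1 / x * (SW w f x T1 - SW w g x T1) := by ring
    rw [this]
    calc _ ≤ |T / x * (SW w f x T - SW w g x T)| + |T1 / x * (SW w f x T1 - SW w g x T1)| := abs_sub _ _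
      _ ≤ _ := by
        rw [abs_mul, abs_mul, abs_of_nonneg hTx, abs_of_nonneg hT1x]
        gcongr
  have c : ∑ x ∈ P, (T / x * ∑ i ∈ F, SW w (e i) x T + T1 / x * ∑ i ∈ F, SW w (e i) x T1) ≤
      ∑ i ∈ F, (|∑ x ∈ P, DD w (e i) x T T1| + 2 * ∑ x ∈ P, T1 / x * SW w (e i) x T1) := by
    have h1 : ∑ x ∈ P, (T / x * ∑ i ∈ F, SW w (e i) x T + T1 / x * ∑ i ∈ F, SW w (e i) x T1) =
        ∑ i ∈ F, ∑ x ∈ P, (T / x * SW w (e i) x T + T1 / x * SW w (e i) x T1) := by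
      rw [Finset.sum_comm]
      apply Finset.sum_congr rfl
      intro x _
      rw [Finset.mul_sum, Finset.mul_sum, ← Finset.sum_add_distrib]
    rw [h1]
    refine Finset.sum_le_sum fun i _ => ?_
    have h2 := le_abs_self (∑ x ∈ P, DD w (e i) x T T1)
    have h3 : ∑ x ∈ P, (T / x * SW w (e i) x T + T1 / x * SW w (e i) x T1) =
        ∑ x ∈ P, DD w (e i) x T T1 + 2 * ∑ x ∈ P, T1 / x * SW w (e i) x T1 := by
      rw [Finset.mul_sum, ← Finset.sum_add_distrib]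
      apply Finset.sum_congr rfl
      intro x _
      unfold DD
      ring
    rw [h3]
    linarith
  have d := abs_sub_abs_le_abs_sub (∑ x ∈ P, DD w f x T T1) (∑ x ∈ P, DD w g x T T1)
  linarith

open Classical in
/-- deterministic part: sums over the boxes, averaged over the points -/
theorem good_avg5 {w : ℝ → ℝ} (hw : IsWt w) (hw0 : ∀ u, 0 ≤ w u) (hV1 : StYV1) (hCc : StYCc) (P : Finset ℝ)
    {T T1 κ1 κ2 κ3 A D C0 E CR : ℝ} {y z S : ℕ} {lp lm : ℕ → ℝ} (hT3 : 3 ≤ T) (hT1 : 1 ≤ T1) (hκ3 : 0 < κ3)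
    (hsv : IsSv y D C0 E lp lm) (hP : ∀ x ∈ P, T ^ 2 ≤ x) (hL : 0 < Real.log T)
    (hRg : ∀ x ∈ P, ∀ (u : Fin 5 → Option ℕ) (v : Fin (5 * S) → Option ℕ) (T' : ℝ), 1 ≤ T' → SW w (BX5 y z u v) x T' ≠ 0 →
      T ^ 2 / CR ≤ PX5 u v ∧ PX5 u v ≤ CR * T ^ 2)
    (hSh : ∀ (u : Fin 5 → Option ℕ) (v : Fin (5 * S) → Option ℕ), ccX5 T κ1 u v ≠ 0 → Gp T u ∧
      ((∀ i, ¬ Lg T κ2 (u i)) → T ^ 2 / CR ≤ PX5 u v → T ^ (κ1 / 2) ≤ ∏ r, sc (v r)))
    (hB : ∀ (u : Fin 5 → Option ℕ) (v : Fin (5 * S) → Option ℕ), (∀ i, ¬ Lg T κ2 (u i)) → Gp T u → T ^ (κ1 / 2) ≤ ∏ r, sc (v r) →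
      |∑ x ∈ P, DD w (BX5 y z u v) x T T1| ≤ P.card * (1 / Real.log T ^ A))
    (hA0 : ∀ (u : Fin 5 → Option ℕ) (v : Fin (5 * S) → Option ℕ), (∃ i, Lg T κ2 (u i)) → Gp T u →
      |∑ x ∈ P, DD w (BXA5 y z T κ3 (fun _ => lp) u v) x T T1| ≤ P.card * (1 / Real.log T ^ A))
    (hA1 : ∀ (u : Fin 5 → Option ℕ) (v : Fin (5 * S) → Option ℕ) (i : Fin 5), (∃ i, Lg T κ2 (u i)) → Gp T u →
      |∑ x ∈ P, DD w (BXA5 y z T κ3 (Function.update (fun _ => lp) i (fun d => lp d - lm d)) u v) x T T1| ≤ P.card * (1 / Real.log T ^ A)) :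
    ∑ u ∈ Bx 5 T, ∑ v ∈ Bx (5 * S) T, |ccX5 T κ1 u v| * |∑ x ∈ P, DD w (BX5 y z u v) x T T1| ≤
      P.card * ∑ _u ∈ Bx 5 T, ∑ _v ∈ Bx (5 * S) T, (7 : ℝ) * (6 / Real.log T ^ A) +
      2 * ∑ x ∈ P, ∑ u ∈ Bx 5 T, ∑ v ∈ Bx (5 * S) T, cwX5 v * ∑ i ∈ Finset.univ.filter (fun i => Lg T κ3 (u i)),
        T1 / x * SW w (BXA5 y z T κ3 (Function.update (fun _ => lp) i (fun d => lp d - lm d)) u v) x T1 := by
  have hx0 : ∀ x ∈ P, 0 < x := fun x hx => lt_of_lt_of_le (by positivity) (hP x hx)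
  have hLA : 0 < Real.log T ^ A := Real.rpow_pos_of_pos hL _
  have hswap : ∑ x ∈ P, ∑ u ∈ Bx 5 T, ∑ v ∈ Bx (5 * S) T, cwX5 v * ∑ i ∈ Finset.univ.filter (fun i => Lg T κ3 (u i)),
        T1 / x * SW w (BXA5 y z T κ3 (Function.update (fun _ => lp) i (fun d => lp d - lm d)) u v) x T1 =
      ∑ u ∈ Bx 5 T, ∑ v ∈ Bx (5 * S) T, cwX5 v * ∑ i ∈ Finset.univ.filter (fun i => Lg T κ3 (u i)),
        ∑ x ∈ P, T1 / x * SW w (BXA5 y z T κ3 (Function.update (fun _ => lp) i (fun d => lp d - lm d)) u v) x T1 := by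
    rw [Finset.sum_comm]
    apply Finset.sum_congr rfl
    intro u _
    rw [Finset.sum_comm]
    apply Finset.sum_congr rfl
    intro v _
    rw [← Finset.mul_sum, Finset.sum_comm]
  rw [hswap, Finset.mul_sum (Bx 5 T) _ (P.card : ℝ), Finset.mul_sum (Bx 5 T) _ (2 : ℝ), ← Finset.sum_add_distrib]
  refine Finset.sum_le_sum fun u hu => ?_
  rw [Finset.mul_sum (Bx (5 * S) T) _ (P.card : ℝ), Finset.mul_sum (Bx (5 * S) T) _ (2 : ℝ), ← Finset.sum_add_distrib]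
  refine Finset.sum_le_sum fun v hv => ?_
  have hcw := cwX5_nonneg v
  have hcw2 := cwX5_le v
  have hPc : (0 : ℝ) ≤ P.card := Nat.cast_nonneg _
  have hv1 := fun n => hV1 T κ3 D C0 E y z (5 * S) lp lm u v n hT3 hκ3 hsv
  set e : Fin 5 → ℕ → ℝ := fun i => ⇑(BXA5 y z T κ3 (Function.update (fun _ => lp) i (fun d => lp d - lm d)) u v) with he
  have hsum0 : 0 ≤ ∑ i ∈ Finset.univ.filter (fun i => Lg T κ3 (u i)), ∑ x ∈ P, T1 / x * SW w (e i) x T1 := by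
    refine Finset.sum_nonneg fun i _ => Finset.sum_nonneg fun x hx => mul_nonneg (by have := hx0 x hx; positivity)
      (SW_nonneg hw0 _ fun n => ?_)
    exact (hv1 n).2 i
  have h14 : 0 ≤ 6 / Real.log T ^ A := by positivity
  by_cases hccz : ccX5 T κ1 u v = 0
  · rw [hccz, abs_zero, zero_mul]
    positivity
  obtain ⟨hGp, hShu⟩ := hSh u v hccz
  have key : |∑ x ∈ P, DD w (BX5 y z u v) x T T1| ≤ P.card * (6 / Real.log T ^ A) +
      2 * ∑ i ∈ Finset.univ.filter (fun i => Lg T κ3 (u i)), ∑ x ∈ P, T1 / x * SW w (e i) x T1 := by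
    by_cases hBc : ∀ i, ¬ Lg T κ2 (u i)
    · have h1 : |∑ x ∈ P, DD w (BX5 y z u v) x T T1| ≤ P.card * (1 / Real.log T ^ A) := by
        by_cases hsh : T ^ (κ1 / 2) ≤ ∏ r, sc (v r)
        · exact hB u v hBc hGp hsh
        · have h0 : ∀ x ∈ P, DD w (BX5 y z u v) x T T1 = 0 := by
            intro x hx
            have h00 : SW w (BX5 y z u v) x T = 0 ∧ SW w (BX5 y z u v) x T1 = 0 := by
              by_contra h0
              have hrel : T ^ 2 / CR ≤ PX5 u v ∧ PX5 u v ≤ CR * T ^ 2 := by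
                by_cases h2 : SW w (BX5 y z u v) x T = 0
                · exact hRg x hx u v T1 hT1 fun h3 => h0 ⟨h2, h3⟩
                · exact hRg x hx u v T (by linarith) h2
              exact hsh (hShu hBc hrel.1)
            unfold DD
            rw [h00.1, h00.2, mul_zero, mul_zero, sub_zero]
          rw [Finset.sum_eq_zero h0, abs_zero]
          positivity
      have h5 : (P.card : ℝ) * (1 / Real.log T ^ A) ≤ P.card * (6 / Real.log T ^ A) := by gcongr; norm_num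
      linarith
    · have hA : ∃ i, Lg T κ2 (u i) := by
        push Not at hBc; exact hBc
      have h0 := hA0 u v hA hGp
      have h1 := fun i => hA1 u v i hA hGp
      have h2 := dd_bound_avg5 hw hw0 P hx0 (show (1 : ℝ) ≤ T by linarith) hT1 (BX5 y z u v) (BXA5 y z T κ3 (fun _ => lp) u v)
        (Finset.univ.filter (fun i => Lg T κ3 (u i))) e (fun n => (hv1 n).1)
      have h3 : ∑ i ∈ Finset.univ.filter (fun i => Lg T κ3 (u i)), (|∑ x ∈ P, DD w (e i) x T T1| + 2 * ∑ x ∈ P, T1 / x * SW w (e i) x T1) ≤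
          5 * (P.card * (1 / Real.log T ^ A)) +
            2 * ∑ i ∈ Finset.univ.filter (fun i => Lg T κ3 (u i)), ∑ x ∈ P, T1 / x * SW w (e i) x T1 := by
        rw [Finset.sum_add_distrib, ← Finset.mul_sum]
        have : ∑ i ∈ Finset.univ.filter (fun i => Lg T κ3 (u i)), |∑ x ∈ P, DD w (e i) x T T1| ≤ 5 * (P.card * (1 / Real.log T ^ A)) := by
          calc _ ≤ ∑ i ∈ Finset.univ.filter (fun i => Lg T κ3 (u i)), P.card * (1 / Real.log T ^ A) :=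
                Finset.sum_le_sum fun i _ => h1 i
            _ ≤ ∑ i : Fin 5, P.card * (1 / Real.log T ^ A) :=
                Finset.sum_le_sum_of_subset_of_nonneg (Finset.filter_subset _ _) fun _ _ _ => by positivity
            _ = 5 * (P.card * (1 / Real.log T ^ A)) := by simp
        linarith
      have h4 : (P.card : ℝ) * (6 / Real.log T ^ A) = P.card * (1 / Real.log T ^ A) + 5 * (P.card * (1 / Real.log T ^ A)) := by ring
      linarith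
  have hcc : |ccX5 T κ1 u v| ≤ cwX5 v := hCc T κ1 S u v
  calc |ccX5 T κ1 u v| * |∑ x ∈ P, DD w (BX5 y z u v) x T T1|
      ≤ cwX5 v * (P.card * (6 / Real.log T ^ A) +
      2 * ∑ i ∈ Finset.univ.filter (fun i => Lg T κ3 (u i)), ∑ x ∈ P, T1 / x * SW w (e i) x T1) :=
        mul_le_mul hcc key (abs_nonneg _) hcw
    _ = P.card * (cwX5 v * (6 / Real.log T ^ A)) +
      2 * (cwX5 v * ∑ i ∈ Finset.univ.filter (fun i => Lg T κ3 (u i)), ∑ x ∈ P, T1 / x * SW w (e i) x T1) := by ring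
    _ ≤ _ := by gcongr

/-- the value at one point -/
theorem point_lo {lx P1 a3 a5 a6 a7 a8 f5 m2 m4 m5 m6 m7 mm I δ L : ℝ} (hL : 12 ≤ L) (hlx1 : 2 * L ≤ lx) (hlx2 : lx ≤ 2 * L + 2)
    (hI : 0 ≤ I) (hδ : 0 < δ) (hIL : 8 * I / δ ≤ L)
    (hp : |lx * P1 - I| ≤ δ / 4)
    (h3 : lx * a3 ≤ m2 / 2 * I + δ / 20000) (h5 : lx * a5 ≤ m4 / 24 * I + δ / 20000) (h6 : lx * a6 ≤ m5 / 120 * I + δ / 20000)
    (h7 : lx * a7 ≤ m6 / 720 * I + δ / 20000) (h8 : lx * a8 ≤ m7 / 5040 * I + δ / 20000)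
    (hf5 : mm * I - δ / 20000 ≤ lx * f5)
    (hnu : 11 / 18 * (m2 / 2) + 47 / 18 * (m4 / 24) + 170 / 3 * (m5 / 120) + 8291 / 18 * (m6 / 720) + 8260 / 3 * (m7 / 5040) -
      47 / 108 * mm ≤ 99 / 100) :
    (I / 100 - 5 * δ / 8) / (2 * L) ≤
      P1 - 11 / 18 * a3 - 47 / 18 * a5 - 170 / 3 * a6 - 8291 / 18 * a7 - 8260 / 3 * a8 + 47 / 108 * f5 := by
  set Y : ℝ := P1 - 11 / 18 * a3 - 47 / 18 * a5 - 170 / 3 * a6 - 8291 / 18 * a7 - 8260 / 3 * a8 + 47 / 108 * f5 with hY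
  have hp1 := (abs_le.1 hp).1
  have hnuI := mul_le_mul_of_nonneg_right hnu hI
  have e5 : (11 / 18 * (m2 / 2) + 47 / 18 * (m4 / 24) + 170 / 3 * (m5 / 120) + 8291 / 18 * (m6 / 720) + 8260 / 3 * (m7 / 5040) -
      47 / 108 * mm) * I = 11 / 18 * (m2 / 2 * I) + 47 / 18 * (m4 / 24 * I) + 170 / 3 * (m5 / 120 * I) + 8291 / 18 * (m6 / 720 * I) +
      8260 / 3 * (m7 / 5040 * I) - 47 / 108 * (mm * I) := by ring
  rw [e5] at hnuI
  have e4 : lx * Y = lx * P1 - 11 / 18 * (lx * a3) - 47 / 18 * (lx * a5) - 170 / 3 * (lx * a6) - 8291 / 18 * (lx * a7) -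
      8260 / 3 * (lx * a8) + 47 / 108 * (lx * f5) := by rw [hY]; ring
  have hv : I / 100 - δ / 2 ≤ lx * Y := by
    rw [e4]
    linarith [hp1, hnuI, h3, h5, h6, h7, h8, hf5]
  have hL0 : 0 < L := by linarith
  rw [div_le_iff₀ hδ] at hIL
  rw [div_le_iff₀ (by positivity)]
  rcases le_total Y 0 with h0 | h0
  · have h1 : (lx - 2 * L) * Y ≤ 0 := mul_nonpos_of_nonneg_of_nonpos (by linarith) h0
    have h2 : (lx - 2 * L) * Y = lx * Y - Y * (2 * L) := by ring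
    linarith
  · rcases le_total Y (δ / 16) with h1 | h1
    · have h2 : (lx - 2 * L) * Y ≤ 2 * (δ / 16) := mul_le_mul (by linarith) h1 h0 (by norm_num)
      have h3 : (lx - 2 * L) * Y = lx * Y - Y * (2 * L) := by ring
      linarith
    · have h2 : δ / 16 * (2 * L) ≤ Y * (2 * L) := mul_le_mul_of_nonneg_right h1 (by linarith)
      have h3 : δ / 16 * (2 * L) = L * δ / 8 := by ring
      linarith

/-- bounds for `log x` -/
theorem log_bd {x T : ℝ} (hT : 0 < T) (hx1 : T ^ 2 ≤ x) (hx2 : x ≤ 4 * T ^ 2) :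
    2 * Real.log T ≤ Real.log x ∧ Real.log x ≤ 2 * Real.log T + 2 := by
  have hx : 0 < x := lt_of_lt_of_le (by positivity) hx1
  constructor
  · have := Real.log_le_log (by positivity) hx1
    rw [Real.log_pow] at this
    push_cast at this
    exact this
  · have h1 : Real.log x ≤ Real.log (4 * T ^ 2) := Real.log_le_log hx hx2
    have h2 : Real.log (4 * T ^ 2) = Real.log 4 + 2 * Real.log T := by
      rw [Real.log_mul (by norm_num) (by positivity), Real.log_pow]; push_cast; ring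
    have h3 : Real.log 4 ≤ 2 := by
      have : Real.log 4 = 2 * Real.log 2 := by
        rw [show (4 : ℝ) = 2 ^ 2 by norm_num, Real.log_pow]; push_cast; ring
      have h5 := Real.log_two_lt_d9
      linarith
    linarith

theorem fin_avg5 {w : ℝ → ℝ} (P : Finset ℝ) {T T1 δ C1 κ1 F CL CE I : ℝ} {y z S : ℕ} {Q1 : ℝ} {Q2 Y : ℝ → ℝ}
    (f1 : 12 ≤ Real.log T) (hδ : 0 < δ) (f2 : 4 * (6 * CL + 6 * CE + 3) / δ ≤ Real.log T)
    (_hCL : 0 ≤ CL) (_hCE : 0 ≤ CE) (hκ1δ : C1 * κ1 ≤ δ / 100) (hF : F ≤ δ / 100)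
    (hli1 : ∀ x ∈ P, ∑ u ∈ Bx 5 T, ∑ v ∈ Bx (5 * S) T, ccX5 T κ1 u v * (T / x * SW w (BX5 y z u v) x T) ≤
      T / x * SW w pr x T + C1 * κ1 / Real.log T + CL / Real.log T ^ 2)
    (hli2 : ∀ x ∈ P, Y x - CL / Real.log T ^ 2 ≤
      ∑ u ∈ Bx 5 T, ∑ v ∈ Bx (5 * S) T, ccX5 T κ1 u v * (T1 / x * SW w (BX5 y z u v) x T1))
    (hgp : ∑ u ∈ Bx 5 T, ∑ v ∈ Bx (5 * S) T, |ccX5 T κ1 u v| * |∑ x ∈ P, DD w (BX5 y z u v) x T T1| ≤ P.card * Q1 + 2 * ∑ x ∈ P, Q2 x)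
    (hbox : Q1 ≤ 1 / Real.log T ^ 2) (hse : ∀ x ∈ P, Q2 x ≤ F / Real.log T + CE / Real.log T ^ 2)
    (hY : ∀ x ∈ P, (I / 100 - 5 * δ / 8) / (2 * Real.log T) ≤ Y x) :
    P.card * ((I / 100 - δ) / (2 * Real.log T)) ≤ ∑ x ∈ P, T / x * SW w pr x T := by
  have hLpos : 0 < Real.log T := by linarith
  have hPc : (0 : ℝ) ≤ P.card := Nat.cast_nonneg _
  set L : ℝ := Real.log T with hL
  set a : ℝ := C1 * κ1 / L + CL / L ^ 2 with ha
  set b : ℝ := F / L + CE / L ^ 2 with hb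
  have hswap : ∀ T' : ℝ, ∑ u ∈ Bx 5 T, ∑ v ∈ Bx (5 * S) T, ccX5 T κ1 u v * ∑ x ∈ P, (T' / x * SW w (BX5 y z u v) x T') =
        ∑ x ∈ P, ∑ u ∈ Bx 5 T, ∑ v ∈ Bx (5 * S) T, ccX5 T κ1 u v * (T' / x * SW w (BX5 y z u v) x T') := by
    intro T'
    symm
    rw [Finset.sum_comm]
    apply Finset.sum_congr rfl
    intro u _
    rw [Finset.sum_comm]
    apply Finset.sum_congr rfl
    intro v _
    rw [Finset.mul_sum]
  have e1 : ∑ x ∈ P, ∑ u ∈ Bx 5 T, ∑ v ∈ Bx (5 * S) T, ccX5 T κ1 u v * (T / x * SW w (BX5 y z u v) x T) ≤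
      ∑ x ∈ P, T / x * SW w pr x T + P.card * a := by
    have h1 := Finset.sum_le_sum hli1
    have h2 : ∑ x ∈ P, (T / x * SW w pr x T + C1 * κ1 / L + CL / L ^ 2) = ∑ x ∈ P, T / x * SW w pr x T + P.card * a := by
      rw [ha, ← nsmul_eq_mul, ← Finset.sum_const, ← Finset.sum_add_distrib]
      apply Finset.sum_congr rfl
      intro x _
      ring
    linarith
  have e2 : P.card * ((I / 100 - 5 * δ / 8) / (2 * L) - CL / L ^ 2) ≤
      ∑ x ∈ P, ∑ u ∈ Bx 5 T, ∑ v ∈ Bx (5 * S) T, ccX5 T κ1 u v * (T1 / x * SW w (BX5 y z u v) x T1) := by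
    rw [← nsmul_eq_mul, ← Finset.sum_const]
    refine Finset.sum_le_sum fun x hx => ?_
    have h1 := hli2 x hx
    have h2 := hY x hx
    linarith
  have hsum : |∑ u ∈ Bx 5 T, ∑ v ∈ Bx (5 * S) T, ccX5 T κ1 u v * ∑ x ∈ P, (T / x * SW w (BX5 y z u v) x T) -
      ∑ u ∈ Bx 5 T, ∑ v ∈ Bx (5 * S) T, ccX5 T κ1 u v * ∑ x ∈ P, (T1 / x * SW w (BX5 y z u v) x T1)| ≤
      ∑ u ∈ Bx 5 T, ∑ v ∈ Bx (5 * S) T, |ccX5 T κ1 u v| * |∑ x ∈ P, DD w (BX5 y z u v) x T T1| := by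
    rw [← Finset.sum_sub_distrib]
    refine (Finset.abs_sum_le_sum_abs _ _).trans (Finset.sum_le_sum fun u _ => ?_)
    rw [← Finset.sum_sub_distrib]
    refine (Finset.abs_sum_le_sum_abs _ _).trans (Finset.sum_le_sum fun v _ => ?_)
    rw [← mul_sub, ← Finset.sum_sub_distrib, abs_mul]
    exact le_of_eq rfl
  rw [hswap T, hswap T1] at hsum
  have hq2 : ∑ x ∈ P, Q2 x ≤ P.card * b := by
    refine (Finset.sum_le_sum hse).trans ?_
    rw [Finset.sum_const, nsmul_eq_mul]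
  have hq1 : (P.card : ℝ) * Q1 ≤ P.card * (1 / L ^ 2) := mul_le_mul_of_nonneg_left hbox hPc
  have e3 := (abs_le.1 hsum).1
  have hf2 : (6 * CL + 6 * CE + 3) / L ≤ δ / 4 := by
    rw [div_le_iff₀ hδ] at f2
    rw [div_le_iff₀ hLpos]
    linarith
  have hfin : (I / 100 - δ) / (2 * L) ≤ (I / 100 - 5 * δ / 8) / (2 * L) - CL / L ^ 2 - a - 1 / L ^ 2 - 2 * b := by
    have h1 : (I / 100 - 5 * δ / 8) / (2 * L) - CL / L ^ 2 - a - 1 / L ^ 2 - 2 * b - (I / 100 - δ) / (2 * L) =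
        (3 * δ / 16 - C1 * κ1 - 2 * F - (2 * CL + 2 * CE + 1) / L) / L := by
      rw [ha, hb]; field_simp; ring
    have h2 : (2 * CL + 2 * CE + 1) / L = (6 * CL + 6 * CE + 3) / L / 3 := by ring
    have h3 : 0 ≤ (3 * δ / 16 - C1 * κ1 - 2 * F - (2 * CL + 2 * CE + 1) / L) / L := by
      apply div_nonneg _ hLpos.le
      rw [h2]
      linarith
    linarith
  have hfin2 := mul_le_mul_of_nonneg_left hfin hPc
  have h4 : (P.card : ℝ) * ((I / 100 - 5 * δ / 8) / (2 * L) - CL / L ^ 2 - a - 1 / L ^ 2 - 2 * b) =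
      P.card * ((I / 100 - 5 * δ / 8) / (2 * L) - CL / L ^ 2) - P.card * a - P.card * (1 / L ^ 2) - 2 * (P.card * b) := by ring
  linarith

open Classical in
theorem iYMnW (r : ℝ) (hBB : StYBBW r) (hAA : StYAAW r) (hSh : StYSh) (hCc : StYCc) (hRg : StYRg) (hV1 : StYV1) (hSv : StSv)
    (hSE : StYSE) (hLi : StYLi) (hPN : Pool.Agent.Work.MP_a8fbd7_nt.EX.ASM.StXPN) (hAl : StYAl) (hLo : StYLo) (hNu : StYNu) :
    StYMnW r := by
  intro w hw hw0 δ hδ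
  obtain ⟨C1, hC1, hLi⟩ := hLi w hw hw0
  obtain ⟨κ1, hκ1, hκ1'', hκ1δ⟩ : ∃ κ1 : ℝ, 0 < κ1 ∧ κ1 ≤ 1 / 2000 ∧ C1 * κ1 ≤ δ / 100 := by
    refine ⟨min (1 / 2000) (δ / (100 * C1)), by positivity, min_le_left _ _, ?_⟩
    have := min_le_right (1 / 2000) (δ / (100 * C1))
    have hC1' : 0 < C1 := by linarith
    calc C1 * min (1 / 2000) (δ / (100 * C1)) ≤ C1 * (δ / (100 * C1)) := by gcongr
      _ = δ / 100 := by field_simp
  have hκ1' : κ1 ≤ 1 / 20 := by linarith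
  obtain ⟨κ2, hκ2, hκ2', hBB⟩ := hBB (κ1 / 2) (by positivity) (by linarith)
  obtain ⟨κ3, κ', hκ3, hκ3', hκ', hκ'', hAA⟩ := hAA κ2 hκ2 (by linarith)
  obtain ⟨C0, hC0, hSv⟩ := hSv
  obtain ⟨C3, hC3, hSE⟩ := hSE w hw hw0 C0 hC0
  obtain ⟨s, hs1, hs0, hsE⟩ := exists_s (C0 := C0) hκ' hC3 (show 0 < δ / 100 by positivity)
  set η : ℝ := κ' / s with hη
  have hs : 0 < s := by linarith
  have hη0 : 0 < η := by positivity
  have hηκ : η ≤ κ' := by rw [hη, div_le_iff₀ hs]; nlinarith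
  have hη20 : η ≤ 1 / 20 := by linarith
  set S : ℕ := SS η with hS
  set A : ℝ := ((10 * (S + 5) : ℕ) : ℝ) with hA
  have hA0 : 0 < A := by rw [hA]; positivity
  obtain ⟨B1, hB1, hBB⟩ := hBB w hw η A hη0 hη20 hA0
  obtain ⟨B2, hB2, hAA⟩ := hAA w hw η A hη0 hηκ hA0
  set B : ℝ := max B1 B2 with hB
  have hB1' : 1 ≤ B := hB1.trans (le_max_left _ _)
  obtain ⟨CB, hCB, hBB⟩ := hBB B (le_max_left _ _)
  obtain ⟨CA, hCA, hAA⟩ := hAA B (le_max_right _ _)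
  obtain ⟨CR, hCR, hRg⟩ := hRg w hw (5 * S)
  set E : ℝ := Real.exp (-s) with hE
  have hE0 : 0 < E := Real.exp_pos _
  obtain ⟨CE, hCE, hSE⟩ := hSE η κ3 κ' E B hη0 hη20 hκ3 (by linarith) hκ' (by linarith) hE0 hB1'
  obtain ⟨CL, hCL, hLi⟩ := hLi η κ1 hη0 hη20 hκ1 hκ1'
  obtain ⟨CP, hCP, hPN⟩ := hPN w hw hw0 B (δ / 4) hB1' (by positivity)
  obtain ⟨CM, hCM, hAl⟩ := hAl w hw hw0 B (δ / 20000) hB1' (by positivity)
  obtain ⟨CO, hCO, hLo⟩ := hLo w hw hw0 B (δ / 20000) κ1 hB1' (by positivity) hκ1 hκ1''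
  -- large T
  have hlog : Tendsto (fun T : ℝ => Real.log T) atTop atTop := Real.tendsto_log_atTop
  have ev1 : ∀ᶠ T : ℝ in atTop, 12 ≤ Real.log T := hlog.eventually_ge_atTop 12
  have ev2 : ∀ᶠ T : ℝ in atTop, 4 * (6 * CL + 6 * CE + 3) / δ ≤ Real.log T := hlog.eventually_ge_atTop _
  have ev3 : ∀ᶠ T : ℝ in atTop, Real.log T ^ B ≤ T := by
    have := (isLittleO_log_rpow_rpow_atTop B (zero_lt_one)).bound (zero_lt_one)
    filter_upwards [this, eventually_ge_atTop 3] with T h h3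
    have hl : 0 ≤ Real.log T := Real.log_nonneg (by linarith)
    rw [Real.rpow_one, one_mul, Real.norm_eq_abs, Real.norm_eq_abs, abs_of_nonneg (by positivity), abs_of_nonneg (by linarith)] at h
    exact h
  have ev4 : ∀ᶠ T : ℝ in atTop, 8 * Iw w / δ ≤ Real.log T := hlog.eventually_ge_atTop _
  have ev5 : ∀ᶠ T : ℝ in atTop, CR ≤ T ^ (κ1 / 100) := (tendsto_rpow_atTop (by positivity)).eventually_ge_atTop CR
  have ev7 : ∀ᶠ T : ℝ in atTop, 2 ≤ T ^ η := (tendsto_rpow_atTop hη0).eventually_ge_atTop 2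
  obtain ⟨T0, hT0⟩ := (ev1.and (ev2.and (ev3.and (ev4.and (ev5.and ev7))))).exists_forall_of_atTop
  refine ⟨max (max (max T0 3) (max CB CA)) (max (max (max CM CE) (max CL CP)) (max CO ((10 : ℝ) ^ 8))), ?_, ?_⟩
  · exact le_trans (by norm_num) (((le_max_right T0 3).trans (le_max_left _ _)).trans (le_max_left _ _))
  intro n H T hTn hT hH1 hH2
  simp only [max_le_iff] at hT
  obtain ⟨⟨⟨hTT0, hT3⟩, hTCB, hTCA⟩, ⟨⟨hTCM, hTCE⟩, hTCL, hTCP⟩, hTCO, hT8⟩ := hT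
  obtain ⟨f1, f2, f3, f4, f5, f7⟩ := hT0 T hTT0
  have hTpos : 0 < T := by linarith
  have hLpos : 0 < Real.log T := by linarith
  have hHn : H ≤ n := H_le_N (N := n) (by rw [← hTn]; exact hT8) (by rw [← hTn]; exact hH2)
  set T1 : ℝ := Real.log T ^ B with hT1
  have hT1' : 1 ≤ T1 := Real.one_le_rpow (by linarith) (by linarith)
  set y : ℕ := zz η T with hy
  set z : ℕ := zz c2 T with hz
  have hy2 : 2 ≤ y := by
    rw [hy]; unfold zz
    exact Nat.le_floor (by exact_mod_cast f7)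
  obtain ⟨lp, lm, hsv⟩ := hSv s y hs0 hy2
  have hD : (y : ℝ) ^ s ≤ T ^ κ' := by
    have h1 : (y : ℝ) ≤ T ^ η := by
      rw [hy]; unfold zz
      exact Nat.floor_le (by positivity)
    calc (y : ℝ) ^ s ≤ (T ^ η) ^ s := Real.rpow_le_rpow (by positivity) h1 (by linarith)
      _ = T ^ κ' := by rw [← Real.rpow_mul hTpos.le, hη]; congr 1; field_simp
  -- the points
  set P : Finset ℝ := Pt n H with hP
  have hPcard : (P.card : ℝ) = H := by rw [hP, card_Pt]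
  have hP12 : ∀ x ∈ P, T ^ 2 ≤ x ∧ x ≤ 4 * T ^ 2 := by
    intro x hx
    obtain ⟨k, hk1, hk2, rfl⟩ := mem_Pt hx
    rw [hTn]
    have h1 : (n : ℝ) ≤ k := by exact_mod_cast hk1.le
    have h2 : (k : ℝ) ≤ 2 * n := by
      have : k ≤ 2 * n := by omega
      exact_mod_cast this
    have h3 : (0 : ℝ) ≤ n := Nat.cast_nonneg n
    constructor <;> nlinarith
  have hP1 : ∀ x ∈ P, T ^ 2 ≤ x := fun x hx => (hP12 x hx).1
  have hP2 : ∀ x ∈ P, x ≤ 4 * T ^ 2 := fun x hx => (hP12 x hx).2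
  have hlp1 : ∀ d, |lp d| ≤ 2 := fun d => (hsv.bdp d).trans (by norm_num)
  have hdif : ∀ d, |lp d - lm d| ≤ 2 := fun d => by
    calc |lp d - lm d| ≤ |lp d| + |lm d| := abs_sub _ _
      _ ≤ 1 + 1 := add_le_add (hsv.bdp d) (hsv.bdm d)
      _ = 2 := by norm_num
  have hsp : ∀ d, lp d ≠ 0 → 1 ≤ d ∧ (d : ℝ) ≤ T ^ κ' := fun d hd => ⟨(hsv.supp d hd).1, (hsv.supp d hd).2.trans hD⟩
  have hsd : ∀ d, lp d - lm d ≠ 0 → 1 ≤ d ∧ (d : ℝ) ≤ T ^ κ' := by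
    intro d hd
    by_cases h0 : lp d = 0
    · have : lm d ≠ 0 := by
        intro h1
        apply hd
        simp [h0, h1]
      exact ⟨(hsv.supm d this).1, (hsv.supm d this).2.trans hD⟩
    · exact hsp d h0
  have hgp := good_avg5 hw hw0 hV1 hCc P (CR := CR) (κ1 := κ1) (κ2 := κ2) (A := A) hT3 hT1' hκ3 hsv hP1 hLpos
    (fun x hx u v T' hT' h => hRg T κ3 x T' y z (fun _ => lp) u v (by linarith) hT' (hP1 x hx) (hP2 x hx) (Or.inl h))
    (fun u v h1 => by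
      obtain ⟨g1, g2⟩ := hSh κ1 κ2 T S u v hκ1 hκ1' hκ2 (by linarith) (by linarith) h1
      refine ⟨g1, fun h2 h3 => g2 h2 ?_⟩
      refine le_trans ?_ h3
      have hCR0 : 0 < CR := by linarith
      rw [le_div_iff₀ hCR0]
      calc T ^ (2 - κ1 / 100) * CR ≤ T ^ (2 - κ1 / 100) * T ^ (κ1 / 100) := by gcongr
        _ = T ^ 2 := by
          rw [← Real.rpow_add hTpos, ← Real.rpow_natCast]; congr 1; push_cast; ring)
    (fun u v h1 hg h2 => by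
      rw [hPcard]
      exact hBB n H T u v hTn hTCB hH1 hH2 h1 hg h2)
    (fun u v h1 hg => by
      rw [hPcard]
      exact hAA n H T u v _ hTn hTCA hH1 hH2 h1 hg (fun _ => hlp1) (fun _ => hsp))
    (fun u v i h1 hg => by
      rw [hPcard]
      refine hAA n H T u v _ hTn hTCA hH1 hH2 h1 hg ?_ ?_
      · intro i' d
        by_cases hi : i' = i
        · subst hi; simpa using hdif d
        · simpa [Function.update_of_ne hi] using hlp1 d
      · intro i' d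
        by_cases hi : i' = i
        · subst hi; simpa using hsd d
        · simpa [Function.update_of_ne hi] using hsp d)
  have hbox := num_box (S := S) (A := A) hA f1
  have hY : ∀ x ∈ P, (Iw w / 100 - 5 * δ / 8) / (2 * Real.log T) ≤
      T1 / x * SW w pr x T1 - 11 / 18 * (T1 / x * SW w (aJ z 3) x T1) - 47 / 18 * (T1 / x * SW w (aJ z 5) x T1) -
    170 / 3 * (T1 / x * SW w (aJ z 6) x T1) - 8291 / 18 * (T1 / x * SW w (aJ z 7) x T1) -
    8260 / 3 * (T1 / x * SW w (aJ z 8) x T1) + 47 / 108 * (T1 / x * SW w (F5 z T κ1) x T1) := by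
    intro x hx
    have hx1 := hP1 x hx
    have hx2 := hP2 x hx
    obtain ⟨hl1, hl2⟩ := log_bd hTpos hx1 hx2
    have hx15 : T ^ (1 / 5 : ℝ) ≤ x := by
      refine le_trans ?_ hx1
      rw [← Real.rpow_natCast]
      exact Real.rpow_le_rpow_of_exponent_le (by linarith) (by norm_num)
    have hpn := hPN T x hTCP hx15 hx2
    have hal := hAl T x hTCM hx1 hx2
    have ha3 := hal 3 (by norm_num) (by norm_num)
    have ha5 := hal 5 (by norm_num) (by norm_num)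
    have hlo := hLo T x hTCO hx1 hx2
    have ha6 := hal 6 (by norm_num) (by norm_num)
    have ha7 := hal 7 (by norm_num) (by norm_num)
    have ha8 := hal 8 (by norm_num) (by norm_num)
    have g2 : (((3 - 1 : ℕ).factorial : ℕ) : ℝ) = 2 := by norm_num [Nat.factorial]
    have g4 : (((5 - 1 : ℕ).factorial : ℕ) : ℝ) = 24 := by norm_num [Nat.factorial]
    have g5 : (((6 - 1 : ℕ).factorial : ℕ) : ℝ) = 120 := by norm_num [Nat.factorial]
    have g6 : (((7 - 1 : ℕ).factorial : ℕ) : ℝ) = 720 := by norm_num [Nat.factorial]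
    have g7 : (((8 - 1 : ℕ).factorial : ℕ) : ℝ) = 5040 := by norm_num [Nat.factorial]
    rw [g2] at ha3
    rw [g4] at ha5
    rw [g5] at ha6
    rw [g6] at ha7
    rw [g7] at ha8
    exact point_lo f1 hl1 hl2 (Iw_nonneg hw0) hδ f4 hpn ha3 ha5 ha6 ha7 ha8 hlo hNu
  have hfin := fin_avg5 (w := w) P (T := T) (T1 := T1) (δ := δ) (C1 := C1) (κ1 := κ1) (F := (C3 / η) ^ 16 * E) (CL := CL) (CE := CE)
    (I := Iw w) (y := y) (z := z) (S := S) f1 hδ f2 (by linarith) (by linarith) hκ1δ hsE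
    (fun x hx => (hLi T T x hTCL (by linarith) le_rfl (hP1 x hx) (hP2 x hx)).1)
    (fun x hx => (hLi T T1 x hTCL hT1' f3 (hP1 x hx) (hP2 x hx)).2)
    hgp hbox (fun x hx => hSE T x lp lm hTCE (hP1 x hx) (hP2 x hx) (isSv_mono hsv hD))
    hY
  rw [hPcard] at hfin
  exact hfin

end Pool.Agent.Work.MP_a8fbd7_nt.EX.WX
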