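import Mathlib
import Pool.Agent.Work.MP_a8fbd7_nt.EX.WX.Mn
import Pool.Agent.Work.MP_a8fbd7_nt.OX.CW.Co

/-!
MP_a8fbd7_nt, block EX, part WX: from smooth windows to lower bounds for the numbers of primes in the two halves, and subdivision.
Author: helper86.
-/

set_option autoImplicit false

open MeasureTheory Set Filter Topology

noncomputable section

namespace Pool.Agent.Work.MP_a8fbd7_nt.EX.WX

open Pool.Agent.Work.MP_56b8f5_nt.UC (IsWt)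
open Pool.Agent.Work.MP_a8fbd7_nt.OX
open Pool.Agent.Work.MP_a8fbd7_nt.OX.ASM
open Pool.Agent.Work.MP_a8fbd7_nt.OX.ASM.Mn_aux (SW_nonneg)
open Pool.Agent.Work.MP_a8fbd7_nt.OX.FIN (cA cB)
open Pool.Agent.Work.MP_a8fbd7_nt.OX.CW (Pt sum_Pt gn gn_bounds SW_le_card A_lo B_lo)

/-- from a smooth weight to the count, one window -/
theorem window_lo (N H : ℕ) (f s2 : ℕ → ℝ) (L τ I2 δ : ℝ) (hN : 3 ≤ N) (hL : L = Real.log N)
    (hlo : ∀ n ∈ Finset.Ioc N (N + H), s2 n ≤ f n)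
    (hs2 : ∀ n ∈ Finset.Ioc N (N + H), 0 ≤ s2 n)
    (h2 : H * ((I2 / 100 - δ) / (2 * L)) ≤ ∑ n ∈ Finset.Ioc N (N + H), (N : ℝ) / (n : ℝ) ^ 2 * s2 n)
    (hI2 : 24 / 25 ≤ I2) (hδ : δ ≤ 1 / 10000) (hτ : τ ≤ 1 / 100) (hH : (H : ℝ) ≤ τ * N) :
    1 / 125 * ∑ n ∈ Finset.Ioc N (N + H), gn n ≤ ∑ n ∈ Finset.Ioc N (N + H), f n := by
  have hN3 : (3 : ℝ) ≤ N := by exact_mod_cast hN
  have hN0 : (0 : ℝ) < N := by linarith
  have hL0 : 0 < L := by rw [hL]; exact Real.log_pos (by linarith)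
  have hH0 : (0 : ℝ) ≤ H := Nat.cast_nonneg H
  set U : ℝ := H * (N / (2 * L)) with hU
  have hU0 : 0 ≤ U := by positivity
  have hcard : (Finset.Ioc N (N + H)).card = H := by rw [Nat.card_Ioc]; omega
  have hg2 : ∑ n ∈ Finset.Ioc N (N + H), gn n ≤ (1 + 1 / 100) * U := by
    calc ∑ n ∈ Finset.Ioc N (N + H), gn n ≤ ∑ n ∈ Finset.Ioc N (N + H), ((N : ℝ) + H) / (2 * Real.log N) :=
          Finset.sum_le_sum fun n hn => (gn_bounds hN n hn).2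
      _ = H * (((N : ℝ) + H) / (2 * L)) := by
          rw [Finset.sum_const, hcard, nsmul_eq_mul, hL]
      _ ≤ H * (((1 + 1 / 100) * N) / (2 * L)) := by
          have h3 : τ * N ≤ 1 / 100 * N := mul_le_mul_of_nonneg_right hτ hN0.le
          gcongr
          linarith
      _ = (1 + 1 / 100) * U := by rw [hU]; ring
  have hlo' : 19 / 2000 * U ≤ ∑ n ∈ Finset.Ioc N (N + H), f n := by
    calc 19 / 2000 * U = N * (H * ((19 / 2000) / (2 * L))) := by rw [hU]; field_simp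
      _ ≤ N * (H * ((I2 / 100 - δ) / (2 * L))) := by
          gcongr
          linarith
      _ ≤ N * ∑ n ∈ Finset.Ioc N (N + H), (N : ℝ) / (n : ℝ) ^ 2 * s2 n := by
          gcongr
      _ = ∑ n ∈ Finset.Ioc N (N + H), N * ((N : ℝ) / (n : ℝ) ^ 2 * s2 n) := by rw [Finset.mul_sum]
      _ ≤ ∑ n ∈ Finset.Ioc N (N + H), f n := by
          apply Finset.sum_le_sum
          intro n hn
          refine le_trans ?_ (hlo n hn)
          have hs := hs2 n hn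
          rw [Finset.mem_Ioc] at hn
          have hnN : (N : ℝ) ≤ n := by exact_mod_cast hn.1.le
          have hn0 : (0 : ℝ) < n := by linarith
          have h6 : (N : ℝ) * ((N : ℝ) / (n : ℝ) ^ 2) ≤ 1 := by
            rw [mul_div_assoc', div_le_one (by positivity)]
            nlinarith
          calc (N : ℝ) * ((N : ℝ) / (n : ℝ) ^ 2 * s2 n) = ((N : ℝ) * ((N : ℝ) / (n : ℝ) ^ 2)) * s2 n := by ring
            _ ≤ 1 * s2 n := mul_le_mul_of_nonneg_right h6 hs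
            _ = s2 n := one_mul _
  linarith

/-- **one window** -/
theorem one_window_lo (r : ℝ) (hMn : StYMnW r) (hWt : StWt) : ∃ C : ℝ, 1 ≤ C ∧ ∀ N H : ℕ, C ≤ N →
    (N : ℝ) ^ r ≤ H → (H : ℝ) ≤ 4 * (N : ℝ) ^ (3 / 20 : ℝ) →
    1 / 125 * ∑ n ∈ Finset.Ioc N (N + H), gn n ≤ ∑ n ∈ Finset.Ioc N (N + H), cA n ∧
    1 / 125 * ∑ n ∈ Finset.Ioc N (N + H), gn n ≤ ∑ n ∈ Finset.Ioc N (N + H), cB n := by
  obtain ⟨τ, hτ⟩ : ∃ τ : ℝ, τ = 1 / 100 := ⟨_, rfl⟩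
  have hτ0 : 0 < τ := by rw [hτ]; norm_num
  have hτ1 : τ ≤ 1 / 10 := by rw [hτ]; norm_num
  obtain ⟨w2, hw2, hw2b, hw2e, hw2s, hw2i, hw2j⟩ := hWt τ (1 - 3 * τ) τ (by linarith) hτ0
  obtain ⟨w4, hw4, hw4b, hw4e, hw4s, hw4i, hw4j⟩ := hWt (-1 + 3 * τ) (-τ) τ (by linarith) hτ0
  obtain ⟨C2, hC2, h2⟩ := hMn w2 hw2 (fun u => (hw2b u).1) (1 / 10000) (by norm_num)
  obtain ⟨C4, hC4, h4⟩ := hMn w4 hw4 (fun u => (hw4b u).1) (1 / 10000) (by norm_num)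
  have ev : ∀ᶠ T : ℝ in atTop, 4 * T ^ (3 / 20 : ℝ) + 1 ≤ τ * T := by
    have h5 : Tendsto (fun T : ℝ => T ^ (17 / 20 : ℝ)) atTop atTop := tendsto_rpow_atTop (by norm_num)
    filter_upwards [h5.eventually_ge_atTop (5 / τ), eventually_ge_atTop 1] with T h6 h7
    have h8 : 1 ≤ T ^ (3 / 20 : ℝ) := Real.one_le_rpow h7 (by norm_num)
    have h9 : T = T ^ (17 / 20 : ℝ) * T ^ (3 / 20 : ℝ) := by
      rw [← Real.rpow_add (by linarith)]; norm_num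
    rw [div_le_iff₀ hτ0] at h6
    calc 4 * T ^ (3 / 20 : ℝ) + 1 ≤ 5 * T ^ (3 / 20 : ℝ) := by linarith
      _ ≤ (T ^ (17 / 20 : ℝ) * τ) * T ^ (3 / 20 : ℝ) := by gcongr
      _ = τ * (T ^ (17 / 20 : ℝ) * T ^ (3 / 20 : ℝ)) := by ring
      _ = τ * T := by rw [← h9]
  obtain ⟨C5, hC5⟩ := ev.exists_forall_of_atTop
  refine ⟨max (max C2 C4) (max C5 3), le_max_of_le_left (le_max_of_le_left hC2), ?_⟩
  intro N H hN hH1 hH2
  simp only [max_le_iff] at hN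
  obtain ⟨⟨t2, t4⟩, t5, t6⟩ := hN
  have hN3 : 3 ≤ N := by exact_mod_cast t6
  have hN1 : 1 ≤ N := by omega
  have hN0 : (0 : ℝ) < N := by linarith
  have hHτ : (H : ℝ) + 1 ≤ τ * N := by
    have := hC5 N t5
    linarith
  have hset : ∀ n ∈ Finset.Ioc N (N + H), N < n ∧ (n : ℝ) + 1 ≤ (1 + τ) * N ∧ (0 : ℝ) < (n : ℝ) ^ 2 := by
    intro n hn
    rw [Finset.mem_Ioc] at hn
    have hn2 : (n : ℝ) ≤ N + H := by exact_mod_cast hn.2
    have hn0 : (0 : ℝ) < n := by exact_mod_cast (by omega : 0 < n)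
    exact ⟨hn.1, by linarith, by positivity⟩
  have conv : ∀ w : ℝ → ℝ, ∑ x ∈ Pt N H, (N : ℝ) / x * SW w pr x N =
      ∑ n ∈ Finset.Ioc N (N + H), (N : ℝ) / (n : ℝ) ^ 2 * SW w pr ((n : ℝ) ^ 2) N := fun w => sum_Pt N H _
  have hpr0 : ∀ n, 0 ≤ pr n := fun n => by unfold pr; split_ifs <;> norm_num
  constructor
  · have e2 := h4 N H N rfl t4 hH1 hH2
    rw [conv] at e2
    refine window_lo N H cA (fun n => SW w4 pr ((n : ℝ) ^ 2) N) (Real.log N) τ (Iw w4) (1 / 10000) hN3 rfl ?_ ?_ e2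
      (by linarith) le_rfl hτ.le (by linarith)
    · intro n hn
      obtain ⟨a1, a2, a3⟩ := hset n hn
      exact SW_le_card (fun u => (hw4b u).2) _ fun m hm => A_lo hN1 a1 hτ0 hτ1 a2 hw4s m hm
    · intro n hn
      exact SW_nonneg (fun u => (hw4b u).1) _ hpr0
  · have e2 := h2 N H N rfl t2 hH1 hH2
    rw [conv] at e2
    refine window_lo N H cB (fun n => SW w2 pr ((n : ℝ) ^ 2) N) (Real.log N) τ (Iw w2) (1 / 10000) hN3 rfl ?_ ?_ e2
      (by linarith) le_rfl hτ.le (by linarith)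
    · intro n hn
      obtain ⟨a1, a2, a3⟩ := hset n hn
      exact SW_le_card (fun u => (hw2b u).2) _ fun m hm => B_lo hN1 a1 hτ0 hτ1 a2 hw2s m hm
    · intro n hn
      exact SW_nonneg (fun u => (hw2b u).1) _ hpr0

/-- subdivision of a long interval -/
theorem subdivide_lo (f g : ℕ → ℝ) (c : ℝ) (N h0 : ℕ) (hh0 : 1 ≤ h0)
    (hw : ∀ M h : ℕ, N ≤ M → M ≤ 2 * N → h0 ≤ h → h < 2 * h0 → c * ∑ n ∈ Finset.Ioc M (M + h), g n ≤ ∑ n ∈ Finset.Ioc M (M + h), f n) :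
    ∀ H M : ℕ, N ≤ M → M + H ≤ 2 * N → h0 ≤ H →
      c * ∑ n ∈ Finset.Ioc M (M + H), g n ≤ ∑ n ∈ Finset.Ioc M (M + H), f n := by
  intro H
  induction H using Nat.strong_induction_on with
  | _ H ih =>
    intro M hM1 hM2 hH
    rcases Nat.lt_or_ge H (2 * h0) with h | h
    · exact hw M H hM1 (by omega) hH h
    · have h1 := hw M h0 hM1 (by omega) le_rfl (by omega)
      have h2 := ih (H - h0) (by omega) (M + h0) (by omega) (by omega) (by omega)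
      have e : M + h0 + (H - h0) = M + H := by omega
      rw [e] at h2
      have hsplit : ∀ F : ℕ → ℝ, ∑ n ∈ Finset.Ioc M (M + H), F n = ∑ n ∈ Finset.Ioc M (M + h0), F n + ∑ n ∈ Finset.Ioc (M + h0) (M + H), F n := by
        intro F
        exact (Finset.sum_Ioc_consecutive F (by omega) (by omega)).symm
      rw [hsplit g, hsplit f, mul_add]
      exact add_le_add h1 h2

/-- **the theorem** -/
theorem all_windows_lo (r : ℝ) (hr0 : 0 < r) (hr1 : r ≤ 3 / 20) (hMn : StYMnW r) (hWt : StWt) : ∃ N0 : ℕ, ∀ N H : ℕ, N0 ≤ N →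
    (N : ℝ) ^ r ≤ H → H ≤ N →
    1 / 125 * ∑ n ∈ Finset.Ioc N (N + H), gn n ≤ ∑ n ∈ Finset.Ioc N (N + H), cA n ∧
    1 / 125 * ∑ n ∈ Finset.Ioc N (N + H), gn n ≤ ∑ n ∈ Finset.Ioc N (N + H), cB n := by
  obtain ⟨C, hC, hone⟩ := one_window_lo r hMn hWt
  refine ⟨max ⌈C⌉₊ (10 ^ 8), ?_⟩
  intro N H hN hH1 hH2
  have hNC : C ≤ N := by
    have h1 : ⌈C⌉₊ ≤ N := (le_max_left _ _).trans hN
    exact (Nat.le_ceil C).trans (by exact_mod_cast h1)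
  have hN8 : (10 : ℝ) ^ 8 ≤ N := by
    have h1 : 10 ^ 8 ≤ N := (le_max_right _ _).trans hN
    exact_mod_cast h1
  have hN1 : (1 : ℝ) ≤ N := by linarith [show (1 : ℝ) ≤ 10 ^ 8 by norm_num]
  have hN0 : (0 : ℝ) < N := by linarith
  set h0 : ℕ := ⌈(2 * N : ℝ) ^ r⌉₊ with hh0
  have h2N : (2 * N : ℝ) ^ r ≤ 3 / 2 * (N : ℝ) ^ (3 / 20 : ℝ) - 1 := by
    have h0 : (2 * N : ℝ) ^ r ≤ (2 * N : ℝ) ^ (3 / 20 : ℝ) := Real.rpow_le_rpow_of_exponent_le (by linarith) hr1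
    refine h0.trans ?_
    rw [Real.mul_rpow (by norm_num) hN0.le]
    have h3 : (2 : ℝ) ^ (3 / 20 : ℝ) ≤ 6 / 5 := by
      have h4 : ((2 : ℝ) ^ (3 / 20 : ℝ)) ^ (20 : ℕ) ≤ (6 / 5) ^ (20 : ℕ) := by
        rw [← Real.rpow_natCast, ← Real.rpow_mul (by norm_num)]
        norm_num
      exact le_of_pow_le_pow_left₀ (by norm_num) (by norm_num) h4
    have h5 : 10 ≤ (N : ℝ) ^ (3 / 20 : ℝ) := by
      calc (10 : ℝ) = ((10 : ℝ) ^ 8) ^ (1 / 8 : ℝ) := by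
            rw [← Real.rpow_natCast, ← Real.rpow_mul (by norm_num)]; norm_num
        _ ≤ ((10 : ℝ) ^ 8) ^ (3 / 20 : ℝ) := Real.rpow_le_rpow_of_exponent_le (by norm_num) (by norm_num)
        _ ≤ _ := Real.rpow_le_rpow (by norm_num) hN8 (by norm_num)
    nlinarith
  have h0a : (2 * N : ℝ) ^ r ≤ h0 := Nat.le_ceil _
  have h0b : (h0 : ℝ) ≤ 3 / 2 * (N : ℝ) ^ (3 / 20 : ℝ) := by
    have := Nat.ceil_lt_add_one (show 0 ≤ (2 * N : ℝ) ^ r by positivity)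
    rw [← hh0] at this
    linarith
  have h0c : 1 ≤ h0 := by
    have : (0 : ℝ) < h0 := lt_of_lt_of_le (by positivity) h0a
    exact_mod_cast this
  have hwin : ∀ M h : ℕ, N ≤ M → M ≤ 2 * N → h0 ≤ h → h < 2 * h0 →
      C ≤ M ∧ (M : ℝ) ^ r ≤ h ∧ (h : ℝ) ≤ 4 * (M : ℝ) ^ (3 / 20 : ℝ) := by
    intro M h hM1 hM2 hh1 hh2
    have a1 : (N : ℝ) ≤ M := by exact_mod_cast hM1
    have a2 : (M : ℝ) ≤ 2 * N := by exact_mod_cast hM2
    have a3 : (h0 : ℝ) ≤ h := by exact_mod_cast hh1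
    have a4 : (h : ℝ) ≤ 2 * h0 := by exact_mod_cast hh2.le
    have a5 : (N : ℝ) ^ (3 / 20 : ℝ) ≤ (M : ℝ) ^ (3 / 20 : ℝ) := Real.rpow_le_rpow hN0.le a1 (by norm_num)
    have a6 : (M : ℝ) ^ r ≤ (2 * N : ℝ) ^ r := Real.rpow_le_rpow (by linarith) a2 hr0.le
    refine ⟨by linarith, by linarith, by linarith⟩
  rcases Nat.lt_or_ge H h0 with hHh | hHh
  · have a4 : (H : ℝ) ≤ h0 := by exact_mod_cast hHh.le
    have a5 : (0 : ℝ) ≤ (N : ℝ) ^ (3 / 20 : ℝ) := by positivity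
    exact hone N H hNC hH1 (by linarith)
  · constructor
    · exact subdivide_lo cA gn _ N h0 h0c (fun M h b1 b2 b3 b4 => by
        obtain ⟨c1, c2, c3⟩ := hwin M h b1 b2 b3 b4
        exact (hone M h c1 c2 c3).1) H N le_rfl (by omega) hHh
    · exact subdivide_lo cB gn _ N h0 h0c (fun M h b1 b2 b3 b4 => by
        obtain ⟨c1, c2, c3⟩ := hwin M h b1 b2 b3 b4
        exact (hone M h c1 c2 c3).2) H N le_rfl (by omega) hHh

end Pool.Agent.Work.MP_a8fbd7_nt.EX.WX
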