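import Mathlib
import Pool.Agent.Work.MP_a8fbd7_nt.EX.WX.TreeA

/-!
MP_a8fbd7_nt, block EX, part WX: the three-block lemmas for windows at `H = 363/400`, `c0 = 17/75`.
Author: helper86.
-/

set_option autoImplicit false

noncomputable section

namespace Pool.Agent.Work.MP_a8fbd7_nt.EX.WX

/-- the tree for `c ≥ 37/400` -/
theorem treeB2 {a b c gA gB h tau s e : ℝ} {Q : ℕ} (hs : 0 < s) (hse : s ≤ e) (he : e ≤ 1 / 10000000)
    (hgA : a / 60 ≤ gA) (hgB : b / 60 ≤ gB) (hh : c / 60 ≤ h) (ha1 : a ≤ 1 + e) (hba : b ≤ a) (hc0 : 37 / 400 ≤ c) (hc1 : c ≤ 17 / 75 + e)
    (hsum0 : 2 - e ≤ a + b + c) (_hsum1 : a + b + c ≤ 2 + e) (_ht1 : tau ≤ 363 / 400 + s) (hWt : gA + gB + h ≤ tau + 2 * s) (hQ : 8 ≤ Q)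
    (LA : LVh (363 / 400) a gA tau s Q) (LB : LVh (363 / 400) b gB tau s Q) (LBC : LVh (363 / 400) (b + c) (gB + h) tau s Q)
    (L2 : LVh (363 / 400) (2 * c) (2 * h) tau s Q) (L3 : LVh (363 / 400) (3 * c) (3 * h) tau s Q)
    (L4 : LVh (363 / 400) (4 * c) (4 * h) tau s Q) : False := by
  have MA := mv_or LA
  have MB := mv_or LB
  have MBC := mv_or LBC
  have M4 := mv_or L4
  have XA := hx_or LA
  have XB := hx_or LB
  have X2 := hx_or L2
  have X3 := hx_or L3
  have X4 := hx_or L4
  have GB7 := gm_or LB 7 (by norm_num) (by omega)
  have GB8 := gm_or LB 8 (by norm_num) (by omega)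
  have G47 := gm_or L4 7 (by norm_num) (by omega)
  have G48 := gm_or L4 8 (by norm_num) (by omega)
  norm_num at GB7 GB8 G47 G48
  clear LA LB LBC L2 L3 L4
  rcases MA with MA | MA
  · rcases MB with MB | MB
    · linarith
    · rcases X2 with X2 | X2
      · rcases XB with XB | XB
        · linarith
        · linarith
      · rcases XB with XB | XB
        · linarith
        · rcases X4 with X4 | X4
          · rcases GB7 with G | G | G | G | G | G | G | G | G | G
            · linarith
            · linarith
            · linarith
            · linarith
            · linarith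
            · linarith
            · linarith
            · linarith
            · linarith
            · linarith
          · rcases M4 with M4 | M4
            · rcases GB7 with G | G | G | G | G | G | G | G | G | G
              · linarith
              · linarith
              · linarith
              · linarith
              · linarith
              · linarith
              · linarith
              · linarith
              · linarith
              · linarith
            · rcases GB7 with G | G | G | G | G | G | G | G | G | G
              · linarith
              · linarith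
              · linarith
              · linarith
              · linarith
              · linarith
              · linarith
              · linarith
              · rcases G47 with G' | G' | G' | G' | G' | G' | G' | G' | G' | G'
                · linarith
                · linarith
                · linarith
                · linarith
                · linarith
                · linarith
                · linarith
                · linarith
                · rcases GB8 with G'' | G'' | G'' | G'' | G'' | G'' | G'' | G'' | G'' | G''
                  · linarith
                  · linarith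
                  · linarith
                  · linarith
                  · linarith
                  · linarith
                  · linarith
                  · linarith
                  · rcases G48 with F | F | F | F | F | F | F | F | F | F
                    · linarith
                    · linarith
                    · linarith
                    · linarith
                    · linarith
                    · linarith
                    · linarith
                    · linarith
                    · linarith
                    · linarith
                  · linarith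
                · linarith
              · linarith
  · rcases MBC with MBC | MBC
    · rcases MB with MB | MB
      · rcases X3 with X3 | X3
        · rcases XA with XA | XA
          · linarith
          · linarith
        · linarith
      · rcases X3 with X3 | X3
        · rcases XB with XB | XB
          · rcases XA with XA | XA
            · linarith
            · linarith
          · linarith
        · linarith
    · linarith

/-- the lemma for `b ≤ a` -/
theorem coreB2 {β : ℝ} (hβ : 0 < β) (hβ1 : β ≤ 1 / 20) {a b c gA gB h tau W s e : ℝ} (he : e = β / 10 ^ 7) (hs : 0 < s) (hse : s ≤ e)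
    (hb : 0 < b) (hgA : a / 60 ≤ gA) (hgB : b / 60 ≤ gB) (hh : c / 60 ≤ h) (ha1 : a ≤ 1 + e)
    (hc0 : β / 8 ≤ c) (hc1 : c ≤ 17 / 75 + e) (hsum0 : 2 - e ≤ a + b + c) (hsum1 : a + b + c ≤ 2 + e)
    (hW : gA + gB + h - s ≤ W) (hWt : W ≤ tau + s) (ht1 : tau ≤ 363 / 400 + s)
    (hLV : ∀ i j k : ℕ, 0 < i * a + j * b + k * c → i * a + j * b + k * c ≤ 2 →
      LVh (363 / 400) (i * a + j * b + k * c) (i * gA + j * gB + k * h) tau s 8)
    (hab : b ≤ a) : False := by
  have e0 : 0 < e := by rw [he]; positivity
  have e1 : e ≤ 1 / 10000000 := by rw [he]; linarith
  have hc : 0 < c := by linarith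
  have LA : LVh (363 / 400) a gA tau s 8 := by
    have := hLV 1 0 0 (by norm_num; linarith) (by norm_num; linarith)
    simpa using this
  have LB : LVh (363 / 400) b gB tau s 8 := by
    have := hLV 0 1 0 (by norm_num; linarith) (by norm_num; linarith)
    simpa using this
  rcases le_total c (37 / 400) with hc10 | hc10
  · -- short `C`
    have m1 : tau ≤ 2 * gA + 3 * e := by
      rcases mv_or LA with H | H
      · linarith
      · linarith
    have m2 : tau ≤ 2 * gB + 3 * e := by
      rcases mv_or LB with H | H
      · linarith
      · linarith
    rw [he] at m1 m2 hse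
    linarith
  · have LBC : LVh (363 / 400) (b + c) (gB + h) tau s 8 := by
      have := hLV 0 1 1 (by norm_num; linarith) (by norm_num; linarith)
      simpa using this
    have L2 : LVh (363 / 400) (2 * c) (2 * h) tau s 8 := by
      have := hLV 0 0 2 (by norm_num; linarith) (by norm_num; linarith)
      simpa using this
    have L3 : LVh (363 / 400) (3 * c) (3 * h) tau s 8 := by
      have := hLV 0 0 3 (by norm_num; linarith) (by norm_num; linarith)
      simpa using this
    have L4 : LVh (363 / 400) (4 * c) (4 * h) tau s 8 := by
      have := hLV 0 0 4 (by norm_num; linarith) (by norm_num; linarith)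
      simpa using this
    exact treeB2 hs hse e1 hgA hgB hh ha1 hab hc10 hc1 hsum0 hsum1 ht1 (by linarith) (by norm_num) LA LB LBC L2 L3 L4

/-- **the three-block lemma for windows** at `(363/400, 17/75)` -/
theorem triW2 : TriW (363 / 400) (17 / 75) := by
  intro β hβ hβ1
  refine ⟨β / 10 ^ 7, by positivity, by linarith, 8, ?_⟩
  intro a b c gA gB h tau W s hs hse ha hb hgA hgB hh ha1 hb1 hc0 hc1 hsum0 hsum1 hW hWt ht1 hLV
  rcases le_total b a with hab | hab
  · exact coreB2 hβ hβ1 rfl hs hse hb hgA hgB hh ha1 hc0 hc1 hsum0 hsum1 hW hWt ht1 hLV hab
  · refine coreB2 (a := b) (b := a) (gA := gB) (gB := gA) hβ hβ1 rfl hs hse ha hgB hgA hh hb1 hc0 hc1 (by linarith)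
      (by linarith) (by linarith) hWt ht1 ?_ hab
    intro i j k h1 h2
    have := hLV j i k (by linarith) (by linarith)
    rw [show (i : ℝ) * b + j * a = j * a + i * b by ring, show (i : ℝ) * gB + j * gA = j * gA + i * gB by ring]
    exact this

/-- the tree for class A -/
theorem treeA2 {a b c gA gB h tau s e κ2 : ℝ} {Q : ℕ} (hs : 0 < s) (hse : s ≤ e) (he : e ≤ κ2 / 1000) (_hk : κ2 ≤ 1 / 20)
    (he1 : e ≤ 1 / 10000000) (_hgA : 0 ≤ gA) (_hgB : 0 ≤ gB) (_hh : 0 ≤ h) (hsum : a + b + c ≤ 2 - κ2)
    (hac : 437 / 400 - e ≤ a + c) (hbc : 437 / 400 - e ≤ b + c) (hc1 : c ≤ 17 / 75 + e)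
    (ht1 : tau ≤ 363 / 400 + s) (hWt : gA + gB + h + 1 - (a + b + c) / 2 ≤ tau + 2 * s)
    (XA : tau ≤ 363 / 400 + 6 * gA - 2 * a + s)
    (LA : LVh (363 / 400) a gA tau s Q) (LB : LVh (363 / 400) b gB tau s Q) (LBC : LVh (363 / 400) (b + c) (gB + h) tau s Q)
    (L2 : LVh (363 / 400) (2 * c) (2 * h) tau s Q) (L4 : LVh (363 / 400) (4 * c) (4 * h) tau s Q) : False := by
  have MA := mv_or LA
  have MB := mv_or LB
  have MBC := mv_or LBC
  have X2 := hx_or L2
  have M4 := mv_or L4
  clear LA LB LBC L2 L4
  rcases MBC with MBC | MBC
  · rcases X2 with X2 | X2
    · rcases MB with MB | MB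
      · linarith
      · linarith
    · rcases MA with MA | MA
      · rcases MB with MB | MB
        · linarith
        · rcases M4 with M4 | M4
          · linarith
          · linarith
      · rcases MB with MB | MB
        · linarith
        · linarith
  · rcases MA with MA | MA
    · linarith
    · linarith

/-- **the three-block lemma for windows, class A**, at `(363/400, 17/75)` -/
theorem triAW2 : TriAW (363 / 400) (17 / 75) := by
  intro κ2 hκ hκ1
  refine ⟨κ2 / 10 ^ 7, by positivity, by linarith, 8, ?_⟩
  intro a b c gA gB h tau W s hs hse ha hb hc hgA hgB hh hsum hac hbc hc1 hW hWt ht1 hLV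
  have LA : LVh (363 / 400) a gA tau s 8 := by
    have := hLV 1 0 0 (by norm_num; linarith) (by norm_num; linarith)
    simpa using this
  have LB : LVh (363 / 400) b gB tau s 8 := by
    have := hLV 0 1 0 (by norm_num; linarith) (by norm_num; linarith)
    simpa using this
  have LBC : LVh (363 / 400) (b + c) (gB + h) tau s 8 := by
    have := hLV 0 1 1 (by norm_num; linarith) (by norm_num; linarith)
    simpa using this
  have LAC : LVh (363 / 400) (a + c) (gA + h) tau s 8 := by
    have := hLV 1 0 1 (by norm_num; linarith) (by norm_num; linarith)
    simpa using this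
  have L2 : LVh (363 / 400) (2 * c) (2 * h) tau s 8 := by
    have := hLV 0 0 2 (by norm_num; linarith) (by norm_num; linarith)
    simpa using this
  have L4 : LVh (363 / 400) (4 * c) (4 * h) tau s 8 := by
    have := hLV 0 0 4 (by norm_num; linarith) (by norm_num; linarith)
    simpa using this
  rcases hx_or LA with XA | XA
  · rcases hx_or LB with XB | XB
    · linarith
    · exact treeA2 (a := b) (b := a) hs hse (by linarith) hκ1 (by linarith) hgB hgA hh (by linarith) (by linarith)
        (by linarith) hc1 ht1 (by linarith) XB LB LA LAC L2 L4
  · exact treeA2 hs hse (by linarith) hκ1 (by linarith) hgA hgB hh hsum (by linarith) (by linarith) hc1 ht1 (by linarith)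
      XA LA LB LBC L2 L4

end Pool.Agent.Work.MP_a8fbd7_nt.EX.WX
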