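import Pool.Agent.Work.MP_a8fbd7_nt.OX.CW.All
import Pool.Agent.Work.MP_a8fbd7_nt.EX.WX.Co
import Pool.Agent.Work.MP_a8fbd7_nt.EX.WX.Tree2
import Pool.Agent.Work.MP_a8fbd7_nt.EX.WX.Logic
import Pool.Agent.Work.MP_a8fbd7_nt.EX.WX.Cell
import Pool.Agent.Work.MP_a8fbd7_nt.EX.WX.Box
import Pool.Agent.Work.MP_a8fbd7_nt.EX.CELL.I_Pt
import Pool.Agent.Work.MP_a8fbd7_nt.EX.ASM.I_XPN
import Pool.Agent.Work.MP_a8fbd7_nt.EX.ASM.I_XSq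
import Pool.Agent.Work.MP_a8fbd7_nt.EX.ASM.I_XBd
import Pool.Agent.Work.MP_a8fbd7_nt.EX.ASM2.I_YRg
import Pool.Agent.Work.MP_a8fbd7_nt.EX.ASM2.I_YV1
import Pool.Agent.Work.MP_a8fbd7_nt.EX.ASM2.I_YSh
import Pool.Agent.Work.MP_a8fbd7_nt.EX.ASM2.I_YCc
import Pool.Agent.Work.MP_a8fbd7_nt.EX.ASM2.I_YEx
import Pool.Agent.Work.MP_a8fbd7_nt.EX.ASM2.I_YPw
import Pool.Agent.Work.MP_a8fbd7_nt.EX.ASM2.I_YF5
import Pool.Agent.Work.MP_a8fbd7_nt.EX.ASM2.I_YDr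
import Pool.Agent.Work.MP_a8fbd7_nt.EX.ASM2.I_YRo
import Pool.Agent.Work.MP_a8fbd7_nt.EX.ASM2.I_YLi
import Pool.Agent.Work.MP_a8fbd7_nt.EX.ASM2.I_YMe
import Pool.Agent.Work.MP_a8fbd7_nt.EX.ASM2.I_YAl

/-!
MP_a8fbd7_nt, block EX, part WX: everything that the lower bounds on average need, except StYSE, StYLo, StYNu.
Author: helper86.
-/

set_option autoImplicit false

noncomputable section

namespace Pool.Agent.Work.MP_a8fbd7_nt.EX.WX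

open Pool.Agent.Work.MP_a8fbd7_nt.OX
open Pool.Agent.Work.MP_a8fbd7_nt.OX.ASM
open Pool.Agent.Work.MP_a8fbd7_nt.OX.FIN (cA cB)
open Pool.Agent.Work.MP_a8fbd7_nt.OX.CW (gn w_Mv w_Hx w_G w_Pf w_NB w_Pd w_F4 w_Sa w_Rp)
open Pool.Agent.Work.MP_a8fbd7_nt.EX.ASM2
open Pool.Agent.Work.MP_a8fbd7_nt.EX.CELL (c2 iPt)

theorem u_XB : StXBW (37 / 400) c2 :=
  xBW iPt (37 / 400) c2 (by norm_num [c2]) (by norm_num [c2]) (by
    have h : (1 : ℝ) - 37 / 400 = 363 / 400 := by norm_num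
    rw [h]; unfold c2; exact triW2)

theorem u_XA : StXAW (37 / 400) c2 :=
  xAW (37 / 400) c2 (by norm_num) (by norm_num) (by norm_num [c2]) (by
    have h : (1 : ℝ) - 37 / 400 = 363 / 400 := by norm_num
    rw [h]; unfold c2; exact triAW2)

theorem u_CB : StCellXBW (37 / 400) c2 :=
  iCellXBW w_Mv w_Hx w_G w_Pf w_NB (37 / 400) c2 (by norm_num) (by norm_num) (by norm_num [c2]) u_XB

theorem u_CA : StCellXAW (37 / 400) c2 :=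
  iCellXAW w_Mv w_Hx w_G w_Pf (37 / 400) c2 (by norm_num) (by norm_num) u_XA

theorem u_Rg : StYRg := iYRg w_Pd
theorem u_BB : StYBBW (37 / 400) := iYBBW (37 / 400) (by norm_num) u_CB w_F4 w_Pd u_Rg w_Sa
theorem u_AA : StYAAW (37 / 400) := iYAAW (37 / 400) (by norm_num) u_CA w_F4 w_Pd u_Rg w_Rp iTb Uc.u_Kp
theorem u_PN : Pool.Agent.Work.MP_a8fbd7_nt.EX.ASM.StXPN := Pool.Agent.Work.MP_a8fbd7_nt.EX.ASM.iXPN ZF.all_Pnt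
theorem u_Me : StYMe := iYMe ZF.all_Pnt
theorem u_Al : StYAl := iYAl u_PN u_Me Pool.Agent.Work.MP_a8fbd7_nt.EX.ASM.iXSq
theorem u_Li : StYLi := iYLi iYEx iYPw iYF5 Pool.Agent.Work.MP_a8fbd7_nt.EX.ASM.iXSq iYDr Pool.Agent.Work.MP_a8fbd7_nt.EX.ASM.iXBd iYRo

theorem u_Mn (hSE : StYSE) (hLo : StYLo) (hNu : StYNu) : StYMnW (37 / 400) :=
  iYMnW (37 / 400) u_BB u_AA iYSh iYCc u_Rg iYV1 iSv hSE u_Li u_PN u_Al hLo hNu

/-- **the theorem, from the last three items** -/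
theorem pre (hSE : StYSE) (hLo : StYLo) (hNu : StYNu) : ∃ N0 : ℕ, ∀ N H : ℕ, N0 ≤ N → (N : ℝ) ^ (37 / 400 : ℝ) ≤ H → H ≤ N →
    1 / 125 * ∑ n ∈ Finset.Ioc N (N + H), gn n ≤ ∑ n ∈ Finset.Ioc N (N + H), cA n ∧
    1 / 125 * ∑ n ∈ Finset.Ioc N (N + H), gn n ≤ ∑ n ∈ Finset.Ioc N (N + H), cB n :=
  all_windows_lo (37 / 400) (by norm_num) (by norm_num) (u_Mn hSE hLo hNu) iWt

end Pool.Agent.Work.MP_a8fbd7_nt.EX.WX
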