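import Pool.Agent.Work.MP_a8fbd7_nt.OX.LV.All
import Pool.Agent.Work.MP_a8fbd7_nt.EX.WX.Pre
import Pool.Agent.Work.MP_a8fbd7_nt.EX.CELL.All2
import Pool.Agent.Work.MP_a8fbd7_nt.EX.ASM2.I_YBB
import Pool.Agent.Work.MP_a8fbd7_nt.EX.ASM2.I_YAA
import Pool.Agent.Work.MP_a8fbd7_nt.EX.ASM2.I_YMn
import Pool.Agent.Work.MP_a8fbd7_nt.EX.ASM2.I_YGa

/-!
MP_a8fbd7_nt, block EX2: the bounds for large gaps between consecutive primes, from StYSE, StYLo, StYNu.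
Author: helper86.
-/

set_option autoImplicit false

noncomputable section

namespace Pool.Agent.Work.MP_a8fbd7_nt.EX.WX

open Pool.Agent.Work.MP_a8fbd7_nt.OX
open Pool.Agent.Work.MP_a8fbd7_nt.OX.ASM
open Pool.Agent.Work.MP_a8fbd7_nt.OX.CW (w_Pd w_F4 w_Sa w_Rp)
open Pool.Agent.Work.MP_a8fbd7_nt.EX.ASM2
open Pool.Agent.Work.MP_a8fbd7_nt.EX.CELL (c2 r2)

theorem g_BB : StYBB := iYBB (CELL.cellXB2 lv_Pf lv_Mv lv_Hx lv_G lv_J ZF.all_HM) w_F4 w_Pd u_Rg w_Sa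
theorem g_AA : StYAA := iYAA (CELL.cellXA2 lv_Pf lv_Mv lv_Hx lv_G lv_J) w_F4 w_Pd u_Rg w_Rp iTb Uc.u_Kp

theorem g_Mn (hSE : StYSE) (hLo : StYLo) (hNu : StYNu) : StYMn :=
  iYMn g_BB g_AA iYSh iYCc u_Rg iYV1 iSv hSE u_Li u_PN u_Al hLo hNu

/-- **large gaps** -/
theorem g_Ga (hSE : StYSE) (hLo : StYLo) (hNu : StYNu) : StYGa := iYGa (g_Mn hSE hLo hNu) iWt

end Pool.Agent.Work.MP_a8fbd7_nt.EX.WX
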